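import Pool.Agent.H28.Cov.NumDefs

/-!
The expectation functionals attached to the ideal level distributions.
-/

namespace Pool.Agent.H28.Cov

open Finset

theorem del_pos (k : ℕ) : 0 < del k := by
  unfold del delQ
  split_ifs <;> norm_num

theorem del_le (k : ℕ) : del k ≤ 1/3 := by
  unfold del delQ
  split_ifs <;> norm_num

theorem nu_pos (k : ℕ) : 0 < nu k := by
  unfold nu
  have := del_le k
  exact one_div_pos.mpr (by linarith)

theorem nu_le (k : ℕ) : nu k ≤ 3/2 := by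
  unfold nu
  have := del_le k
  rw [div_le_iff₀ (by linarith)]
  linarith

noncomputable def rg (k i : ℕ) : ℝ := if i = 0 then 1 else if k.Prime then nu k / (k:ℝ)^i else 0

theorem rg_zero (k : ℕ) : rg k 0 = 1 := by simp [rg]

theorem rg_nonneg (k i : ℕ) : 0 ≤ rg k i := by
  unfold rg
  have := nu_pos k
  split_ifs <;> positivity

theorem rg_succ (k i : ℕ) (hk : k.Prime) : rg k (i+1) = nu k / (k:ℝ)^(i+1) := by
  simp [rg, hk]

theorem rg_succ' (k i : ℕ) (hk : ¬ k.Prime) : rg k (i+1) = 0 := by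
  simp [rg, hk]

theorem rg_anti (k i : ℕ) : rg k (i+1) ≤ rg k i := by
  by_cases hk : k.Prime
  · have h2 : (2:ℝ) ≤ k := by exact_mod_cast hk.two_le
    rcases Nat.eq_zero_or_pos i with h | h
    · subst h
      rw [rg_zero, rg_succ k 0 hk, div_le_one (by positivity)]
      have := nu_le k
      simp only [zero_add, pow_one]
      linarith
    · obtain ⟨j, rfl⟩ : ∃ j, i = j + 1 := ⟨i - 1, by omega⟩
      rw [rg_succ k _ hk, rg_succ k _ hk]
      have := (nu_pos k).le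
      apply div_le_div_of_nonneg_left this (by positivity)
      exact pow_le_pow_right₀ (by linarith) (by omega)
  · rw [rg_succ' k i hk]
    exact rg_nonneg k i

noncomputable def rhog (γ k v : ℕ) : ℝ := if v < γ then rg k v - rg k (v+1) else rg k v

theorem rhog_nonneg (γ k v : ℕ) : 0 ≤ rhog γ k v := by
  unfold rhog
  split_ifs
  · linarith [rg_anti k v]
  · exact rg_nonneg k v

/-- Abel summation -/
theorem abel (γ k : ℕ) (f : ℕ → ℝ) : ∑ v ∈ range (γ+1), rhog γ k v * f v =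
    f 0 + ∑ i ∈ range γ, rg k (i+1) * (f (i+1) - f i) := by
  rw [Finset.sum_range_succ]
  have h1 : ∑ v ∈ range γ, rhog γ k v * f v = ∑ v ∈ range γ, (rg k v - rg k (v+1)) * f v := by
    apply Finset.sum_congr rfl
    intro v hv
    rw [rhog, if_pos (Finset.mem_range.mp hv)]
  have h2 : rhog γ k γ = rg k γ := by simp [rhog]
  rw [h1, h2]
  clear h1 h2
  induction γ with
  | zero => simp [rg_zero]
  | succ n ih =>
    rw [Finset.sum_range_succ, Finset.sum_range_succ]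
    linarith

theorem sum_rhog (γ k : ℕ) : ∑ v ∈ range (γ+1), rhog γ k v = 1 := by
  have := abel γ k (fun _ => 1)
  simpa using this

theorem sum_rhog_lin (γ k : ℕ) (hk : k.Prime) :
    ∑ v ∈ range (γ+1), rhog γ k v * (1 + (v:ℝ)) ≤ 1 + nu k / ((k:ℝ) - 1) := by
  rw [abel γ k (fun v => 1 + (v:ℝ))]
  have h2 : (2:ℝ) ≤ k := by exact_mod_cast hk.two_le
  have hn := (nu_pos k).le
  have key : ∀ n : ℕ, ∑ i ∈ range n, 1 / (k:ℝ)^(i+1) = 1 / ((k:ℝ) - 1) * (1 - 1 / (k:ℝ)^n) := by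
    intro n
    have hk1 : (k:ℝ) - 1 ≠ 0 := by linarith
    have hk0 : (k:ℝ) ≠ 0 := by linarith
    induction n with
    | zero => simp
    | succ n ih =>
      rw [Finset.sum_range_succ, ih]
      field_simp
      ring
  have h3 : ∑ i ∈ range γ, rg k (i+1) * ((1 + ((i+1 : ℕ):ℝ)) - (1 + (i:ℝ))) =
      nu k * ∑ i ∈ range γ, 1 / (k:ℝ)^(i+1) := by
    rw [Finset.mul_sum]
    apply Finset.sum_congr rfl
    intro i _
    rw [rg_succ k i hk]
    push_cast
    ring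
  rw [h3, key]
  have h4 : 0 ≤ 1 / (k:ℝ)^γ := by positivity
  have h5 : 0 ≤ 1 / ((k:ℝ) - 1) := one_div_nonneg.mpr (by linarith)
  have h6 : 1 / ((k:ℝ) - 1) * (1 - 1 / (k:ℝ)^γ) ≤ 1 / ((k:ℝ) - 1) := by nlinarith
  have h7 := mul_le_mul_of_nonneg_left h6 hn
  have h8 : nu k * (1 / ((k:ℝ) - 1)) = nu k / ((k:ℝ) - 1) := by ring
  rw [h8] at h7
  simp only [Nat.cast_zero, add_zero]
  linarith

theorem sum_rhog_sq (γ k : ℕ) (hk : k.Prime) :
    ∑ v ∈ range (γ+1), rhog γ k v * (1 + (v:ℝ))^2 ≤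
      1 + nu k * (3 * (k:ℝ) - 1) / ((k:ℝ) - 1)^2 := by
  rw [abel γ k (fun v => (1 + (v:ℝ))^2)]
  have h2 : (2:ℝ) ≤ k := by exact_mod_cast hk.two_le
  have hn := (nu_pos k).le
  have key : ∀ n : ℕ, ∑ i ∈ range n, (2 * (i:ℝ) + 3) / (k:ℝ)^(i+1) =
      (3 * (k:ℝ) - 1) / ((k:ℝ) - 1)^2 * (1 - 1 / (k:ℝ)^n) - 2 * n / ((k:ℝ) - 1) / (k:ℝ)^n := by
    intro n
    have hk1 : (k:ℝ) - 1 ≠ 0 := by linarith
    have hk0 : (k:ℝ) ≠ 0 := by linarith
    induction n with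
    | zero => simp
    | succ n ih =>
      rw [Finset.sum_range_succ, ih]
      push_cast
      field_simp
      ring
  have h3 : ∑ i ∈ range γ, rg k (i+1) * ((1 + ((i+1 : ℕ):ℝ))^2 - (1 + (i:ℝ))^2) =
      nu k * ∑ i ∈ range γ, (2 * (i:ℝ) + 3) / (k:ℝ)^(i+1) := by
    rw [Finset.mul_sum]
    apply Finset.sum_congr rfl
    intro i _
    rw [rg_succ k i hk]
    push_cast
    ring
  rw [h3, key]
  have h4 : 0 ≤ 1 / (k:ℝ)^γ := by positivity
  have h5 : 0 ≤ (3 * (k:ℝ) - 1) / ((k:ℝ) - 1)^2 := div_nonneg (by linarith) (by positivity)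
  have h5' : 0 ≤ 2 * (γ:ℝ) / ((k:ℝ) - 1) / (k:ℝ)^γ := by
    apply div_nonneg _ (by positivity)
    exact div_nonneg (by positivity) (by linarith)
  have h6 : (3 * (k:ℝ) - 1) / ((k:ℝ) - 1)^2 * (1 - 1 / (k:ℝ)^γ) ≤
      (3 * (k:ℝ) - 1) / ((k:ℝ) - 1)^2 := by nlinarith
  have h7 := mul_le_mul_of_nonneg_left (show (3 * (k:ℝ) - 1) / ((k:ℝ) - 1)^2 * (1 - 1 / (k:ℝ)^γ)
    - 2 * γ / ((k:ℝ) - 1) / (k:ℝ)^γ ≤ (3 * (k:ℝ) - 1) / ((k:ℝ) - 1)^2 by linarith) hn
  have h8 : nu k * ((3 * (k:ℝ) - 1) / ((k:ℝ) - 1)^2) = nu k * (3 * (k:ℝ) - 1) / ((k:ℝ) - 1)^2 := by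
    ring
  rw [h8] at h7
  simp only [Nat.cast_zero, add_zero, one_pow]
  linarith

/-- for non-primes the distribution is concentrated in 0 -/
theorem sum_rhog_np (γ k : ℕ) (hk : ¬ k.Prime) (f : ℕ → ℝ) :
    ∑ v ∈ range (γ+1), rhog γ k v * f v = f 0 := by
  rw [abel]
  have : ∑ i ∈ range γ, rg k (i+1) * (f (i+1) - f i) = 0 := by
    apply Finset.sum_eq_zero
    intro i _
    rw [rg_succ' k i hk, zero_mul]
  rw [this, add_zero]

noncomputable def EE (γ : ℕ) : ℕ → (ℕ → ℝ) → ℝ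
  | 0, f => 1/2 * ∑ v ∈ range (γ+1), rhog γ 5 v * f (1 + v)
      + 1/2 * ∑ v ∈ range (γ+1), rhog γ 5 v * f (2 + v)
  | i+1, f => EE γ i (fun c => ∑ v ∈ range (γ+1), rhog γ (7+i) v * f (c * (1 + v)))

theorem EE_mono (γ : ℕ) : ∀ (i : ℕ) (f g : ℕ → ℝ), (∀ c, 1 ≤ c → f c ≤ g c) → EE γ i f ≤ EE γ i g
  | 0, f, g, h => by
    simp only [EE]
    have h1 : ∑ v ∈ range (γ+1), rhog γ 5 v * f (1 + v) ≤ ∑ v ∈ range (γ+1), rhog γ 5 v * g (1 + v) :=
      Finset.sum_le_sum (fun v _ => mul_le_mul_of_nonneg_left (h _ (by omega)) (rhog_nonneg γ 5 v))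
    have h2 : ∑ v ∈ range (γ+1), rhog γ 5 v * f (2 + v) ≤ ∑ v ∈ range (γ+1), rhog γ 5 v * g (2 + v) :=
      Finset.sum_le_sum (fun v _ => mul_le_mul_of_nonneg_left (h _ (by omega)) (rhog_nonneg γ 5 v))
    linarith
  | i+1, f, g, h => by
    simp only [EE]
    apply EE_mono γ i
    intro c hc
    exact Finset.sum_le_sum (fun v _ => mul_le_mul_of_nonneg_left
      (h _ (Nat.mul_pos (by omega) (by omega))) (rhog_nonneg γ _ v))

theorem EE_smul (γ : ℕ) : ∀ (i : ℕ) (a : ℝ) (f : ℕ → ℝ),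
    EE γ i (fun c => a * f c) = a * EE γ i f
  | 0, a, f => by
    simp only [EE, Finset.mul_sum, mul_add]
    congr 1 <;> exact Finset.sum_congr rfl (fun v _ => by ring)
  | i+1, a, f => by
    simp only [EE]
    rw [← EE_smul γ i]
    congr 1
    funext c
    rw [Finset.mul_sum]
    exact Finset.sum_congr rfl (fun v _ => by ring)

theorem EE_add (γ : ℕ) : ∀ (i : ℕ) (f g : ℕ → ℝ),
    EE γ i (fun c => f c + g c) = EE γ i f + EE γ i g
  | 0, f, g => by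
    simp only [EE, mul_add, Finset.sum_add_distrib]
    ring
  | i+1, f, g => by
    simp only [EE, mul_add, Finset.sum_add_distrib]
    rw [← EE_add γ i]

theorem EE_zero (γ : ℕ) (i : ℕ) : EE γ i (fun _ => 0) = 0 := by
  have := EE_smul γ i 0 (fun _ => 0)
  simpa using this

theorem EE_sum {ι : Type*} (γ : ℕ) (i : ℕ) (s : Finset ι) (f : ι → ℕ → ℝ) :
    EE γ i (fun c => ∑ x ∈ s, f x c) = ∑ x ∈ s, EE γ i (f x) := by
  classical
  induction s using Finset.induction_on with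
  | empty => simpa using EE_zero γ i
  | insert a s ha ih =>
    simp only [Finset.sum_insert ha]
    rw [EE_add, ih]

theorem EE_one (γ : ℕ) : ∀ i, EE γ i (fun _ => 1) = 1
  | 0 => by
    simp only [EE, mul_one, sum_rhog]
    norm_num
  | i+1 => by
    simp only [EE, mul_one, sum_rhog]
    exact EE_one γ i

theorem EE_nonneg (γ i : ℕ) (f : ℕ → ℝ) (h : ∀ c, 1 ≤ c → 0 ≤ f c) : 0 ≤ EE γ i f := by
  rw [← EE_zero γ i]
  exact EE_mono γ i _ _ h

/-- recursion of the potential bounds -/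
noncomputable def HH (γ : ℕ) : ℕ → ℕ → ℕ → ℝ
  | 0, k, c => nu k * max ((c:ℝ) / ((k:ℝ) - 1) - del k) 0
  | n+1, k, c => ∑ v ∈ range (γ+1), rhog γ k v * HH γ n (k+1) (c * (1 + v))

theorem EE_HH (γ : ℕ) : ∀ n i, EE γ i (HH γ n (7+i)) = EE γ (i+n) (HH γ 0 (7+i+n))
  | 0, i => rfl
  | n+1, i => by
    have h1 : EE γ i (HH γ (n+1) (7+i)) = EE γ (i+1) (HH γ n (7+(i+1))) := by
      simp only [EE, HH]
      rfl
    rw [h1, EE_HH γ n (i+1)]
    have h2 : i + 1 + n = i + (n + 1) := by omega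
    have h3 : 7 + (i + 1) + n = 7 + i + (n + 1) := by omega
    rw [h2, h3]

end Pool.Agent.H28.Cov
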