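import Mathlib

/-!
Stop-loss alignment: if `P` is a sub-probability with `P(C_l) ≤ r (lev l)`, then the expectation of
`(∑ c_l 1[C_l] - t)_+` is at most the one of the nested (comonotone) situation.
-/

namespace Pool.Agent.H28.Cov

open Finset Classical

theorem exists_gap {ι : Type*} (L : Finset ι) (c : ι → ℝ) (lev : ι → ℕ)
    (hc : ∀ l ∈ L, 0 ≤ c l) (t : ℝ) (ht : 0 ≤ t) (hlt : t < ∑ l ∈ L, c l) :
    ∃ d : ι → ℝ, (∀ l ∈ L, 0 ≤ d l ∧ d l ≤ c l) ∧ (∑ l ∈ L, d l = t) ∧
      ∀ v, ∑ l ∈ L.filter (fun l => lev l ≤ v), (c l - d l) ≤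
        max (∑ l ∈ L.filter (fun l => lev l ≤ v), c l - t) 0 := by
  set s : ℕ → ℝ := fun v => ∑ l ∈ L.filter (fun l => lev l < v), c l with hs
  have hs0 : s 0 = 0 := by simp [hs]
  have hex : ∃ v, t < s (v + 1) := by
    refine ⟨L.sup lev, ?_⟩
    have : L.filter (fun l => lev l < L.sup lev + 1) = L := by
      apply Finset.filter_true_of_mem
      intro l hl
      exact Nat.lt_succ_of_le (Finset.le_sup (f := lev) hl)
    simp only [hs, this]
    exact hlt
  set i := Nat.find hex with hi
  have h1 : t < s (i + 1) := Nat.find_spec hex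
  have h2 : s i ≤ t := by
    rcases Nat.eq_zero_or_pos i with h | h
    · rw [h, hs0]; exact ht
    · have := Nat.find_min hex (m := i - 1) (by omega)
      rw [Nat.sub_add_cancel h] at this
      exact not_lt.mp this
  set θ : ℝ := (t - s i) / (s (i + 1) - s i) with hθ
  have hden : 0 < s (i + 1) - s i := by linarith
  have hθ0 : 0 ≤ θ := div_nonneg (by linarith) hden.le
  have hθ1 : θ ≤ 1 := by
    rw [hθ, div_le_one hden]; linarith
  have hsplit : s (i + 1) - s i = ∑ l ∈ L.filter (fun l => lev l = i), c l := by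
    have : L.filter (fun l => lev l < i + 1) =
        L.filter (fun l => lev l < i) ∪ L.filter (fun l => lev l = i) := by
      ext l; simp only [Finset.mem_filter, Finset.mem_union]
      constructor
      · rintro ⟨h, h'⟩
        rcases Nat.lt_succ_iff_lt_or_eq.mp h' with h'' | h''
        · left; exact ⟨h, h''⟩
        · right; exact ⟨h, h''⟩
      · rintro (⟨h, h'⟩ | ⟨h, h'⟩)
        · exact ⟨h, by omega⟩
        · exact ⟨h, by omega⟩
    simp only [hs, this]
    rw [Finset.sum_union]
    · ring
    · rw [Finset.disjoint_left]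
      intro l hl hl'
      simp only [Finset.mem_filter] at hl hl'
      omega
  let d : ι → ℝ := fun l => if lev l < i then c l else if lev l = i then θ * c l else 0
  have hd : ∀ l ∈ L, 0 ≤ d l ∧ d l ≤ c l := by
    intro l hl
    have := hc l hl
    simp only [d]
    split_ifs
    · exact ⟨this, le_rfl⟩
    · exact ⟨mul_nonneg hθ0 this, by nlinarith⟩
    · exact ⟨le_rfl, this⟩
  have hsumd : ∑ l ∈ L, d l = t := by
    have e1 : ∑ l ∈ L, d l = ∑ l ∈ L.filter (fun l => lev l < i), c l
        + θ * ∑ l ∈ L.filter (fun l => lev l = i), c l := by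
      rw [Finset.mul_sum, Finset.sum_filter, Finset.sum_filter, ← Finset.sum_add_distrib]
      apply Finset.sum_congr rfl
      intro l hl
      simp only [d]
      by_cases h : lev l < i
      · have : ¬ lev l = i := by omega
        simp [h, this]
      · by_cases h' : lev l = i
        · simp [h, h']
        · simp [h, h']
    rw [e1, ← hsplit, hθ, div_mul_cancel₀ _ hden.ne']
    simp only [hs]
    ring
  refine ⟨d, hd, hsumd, ?_⟩
  intro v
  by_cases hv : v < i
  · have : ∑ l ∈ L.filter (fun l => lev l ≤ v), (c l - d l) = 0 := by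
      apply Finset.sum_eq_zero
      intro l hl
      have h := (Finset.mem_filter.mp hl).2
      have h' : lev l < i := by omega
      simp [d, h']
    rw [this]
    exact le_max_right _ _
  · have : ∑ l ∈ L.filter (fun l => lev l ≤ v), d l = t := by
      rw [← hsumd]
      apply Finset.sum_subset (Finset.filter_subset _ _)
      intro l hl hl'
      have h : ¬ lev l ≤ v := fun h => hl' (Finset.mem_filter.mpr ⟨hl, h⟩)
      have h1 : ¬ lev l < i := by omega
      have h2 : ¬ lev l = i := by omega
      simp [d, h1, h2]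
    rw [Finset.sum_sub_distrib, this]
    exact le_max_left _ _

theorem stoploss {ι α : Type*} (L : Finset ι) (Y : Finset α) (P : α → ℝ)
    (hP : ∀ y ∈ Y, 0 ≤ P y) (C : ι → α → Prop) (c : ι → ℝ) (hc : ∀ l ∈ L, 0 ≤ c l)
    (lev : ι → ℕ) (γ : ℕ) (hlev : ∀ l ∈ L, lev l ≤ γ) (r rho : ℕ → ℝ)
    (hr : ∀ l ∈ L, ∑ y ∈ Y.filter (fun y => C l y), P y ≤ r (lev l))
    (hrho : ∀ v, 0 ≤ rho v) (hsum : ∀ i, i ≤ γ → ∑ v ∈ Finset.Icc i γ, rho v = r i)
    (t : ℝ) (ht : 0 ≤ t) :
    ∑ y ∈ Y, P y * max (∑ l ∈ L.filter (fun l => C l y), c l - t) 0 ≤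
      ∑ v ∈ range (γ + 1), rho v * max (∑ l ∈ L.filter (fun l => lev l ≤ v), c l - t) 0 := by
  by_cases hlt : t < ∑ l ∈ L, c l
  swap
  · have h0 : ∑ y ∈ Y, P y * max (∑ l ∈ L.filter (fun l => C l y), c l - t) 0 = 0 := by
      apply Finset.sum_eq_zero
      intro y _
      have : ∑ l ∈ L.filter (fun l => C l y), c l ≤ ∑ l ∈ L, c l :=
        Finset.sum_le_sum_of_subset_of_nonneg (Finset.filter_subset _ _) (fun l hl _ => hc l hl)
      rw [max_eq_right (by linarith [not_lt.mp hlt]), mul_zero]
    rw [h0]
    exact Finset.sum_nonneg (fun v _ => mul_nonneg (hrho v) (le_max_right _ _))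
  obtain ⟨d, hd, hdt, hdv⟩ := exists_gap L c lev hc t ht hlt
  calc ∑ y ∈ Y, P y * max (∑ l ∈ L.filter (fun l => C l y), c l - t) 0
      ≤ ∑ y ∈ Y, P y * ∑ l ∈ L.filter (fun l => C l y), (c l - d l) := by
        apply Finset.sum_le_sum
        intro y hy
        apply mul_le_mul_of_nonneg_left _ (hP y hy)
        apply max_le
        · rw [Finset.sum_sub_distrib, ← hdt]
          have : ∑ l ∈ L.filter (fun l => C l y), d l ≤ ∑ l ∈ L, d l :=
            Finset.sum_le_sum_of_subset_of_nonneg (Finset.filter_subset _ _)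
              (fun l hl _ => (hd l hl).1)
          linarith
        · exact Finset.sum_nonneg (fun l hl => by
            linarith [(hd l (Finset.mem_filter.mp hl).1).2])
    _ = ∑ l ∈ L, (c l - d l) * ∑ y ∈ Y.filter (fun y => C l y), P y := by
        simp_rw [Finset.mul_sum, Finset.sum_filter]
        rw [Finset.sum_comm]
        apply Finset.sum_congr rfl
        intro l _
        apply Finset.sum_congr rfl
        intro y _
        split_ifs <;> ring
    _ ≤ ∑ l ∈ L, (c l - d l) * r (lev l) := by
        apply Finset.sum_le_sum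
        intro l hl
        exact mul_le_mul_of_nonneg_left (hr l hl) (by linarith [(hd l hl).2])
    _ = ∑ l ∈ L, (c l - d l) * ∑ v ∈ Finset.Icc (lev l) γ, rho v := by
        apply Finset.sum_congr rfl
        intro l hl
        rw [hsum _ (hlev l hl)]
    _ = ∑ v ∈ range (γ + 1), rho v * ∑ l ∈ L.filter (fun l => lev l ≤ v), (c l - d l) := by
        have e : ∀ l ∈ L, (c l - d l) * ∑ v ∈ Finset.Icc (lev l) γ, rho v =
            ∑ v ∈ range (γ + 1), if lev l ≤ v then rho v * (c l - d l) else 0 := by
          intro l _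
          rw [← Finset.sum_filter, Finset.mul_sum]
          have : (range (γ + 1)).filter (fun v => lev l ≤ v) = Finset.Icc (lev l) γ := by
            ext v; simp only [Finset.mem_filter, Finset.mem_range, Finset.mem_Icc]; omega
          rw [this]
          exact Finset.sum_congr rfl (fun v _ => by ring)
        rw [Finset.sum_congr rfl e, Finset.sum_comm]
        apply Finset.sum_congr rfl
        intro v _
        rw [Finset.mul_sum, Finset.sum_filter]
    _ ≤ _ := by
        apply Finset.sum_le_sum
        intro v _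
        exact mul_le_mul_of_nonneg_left (hdv v) (hrho v)

end Pool.Agent.H28.Cov
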