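import Pool.Agent.H28.Cov.NumRun

namespace Pool.Agent.H28.Cov

open Finset

set_option maxRecDepth 100000

/-- `173!` -/
def QQ : ℕ := 36927733697396923753829554635211962404299715564140382424433649868278555214296659802052327860953228596413291334931704037143411082635200789592708437910693220744422451783693904122568819692138717826140678603271725989637483256524946200711557865266227200777205900363920166407372800000000000000000000000000000000000000000

theorem QQ_eq : QQ = Nat.factorial 173 := by decide +kernel

theorem gcd_QQ (j : ℕ) (h : 173 < j) (hp : j.Prime) : Nat.gcd j QQ = 1 := by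
  have : Nat.Coprime j QQ := by
    rw [Nat.Prime.coprime_iff_not_dvd hp, QQ_eq, hp.dvd_factorial]
    omega
  exact this

theorem r0 : run QQ 4 3 4 3 413685960539864138 707662498587643 800 200 152893770727796798 516524834918961 = true := by decide +kernel

theorem r1 : run QQ 4 3 4 3 603345038199389666 752689983797369 1000 1000 413685960539864138 707662498587643 = true := by decide +kernel

theorem r2 : run QQ 4 3 4 3 741640375205102383 771546089040402 1000 2000 603345038199389666 752689983797369 = true := by decide +kernel

theorem r3 : run QQ 5 4 25 16 844173321373339677 783884817436275 1000 3000 741640375205102383 771546089040402 = true := by decide +kernel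

theorem r4 : run QQ 5 4 25 16 932737964204262108 792156778885786 1000 4000 844173321373339677 783884817436275 = true := by decide +kernel

theorem r5 : run QQ 5 4 25 16 1008383835517562833 797915331432604 1000 5000 932737964204262108 792156778885786 = true := by decide +kernel

theorem r6 : run QQ 5 4 25 16 1078925414296823953 802450784720347 1000 6000 1008383835517562833 797915331432604 = true := by decide +kernel

theorem r7 : run QQ 5 4 25 16 1138257914892141128 805752042495542 1000 7000 1078925414296823953 802450784720347 = true := by decide +kernel

theorem r8 : run QQ 5 4 25 16 1194909453934018878 808533500919463 1000 8000 1138257914892141128 805752042495542 = true := by decide +kernel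

theorem r9 : run QQ 5 4 25 16 1249042884159787126 810914319413251 1000 9000 1194909453934018878 808533500919463 = true := by decide +kernel

theorem r10 : run QQ 5 4 25 16 1297306791886439389 812833353463530 1000 10000 1249042884159787126 810914319413251 = true := by decide +kernel

theorem r11 : run QQ 5 4 25 16 1341596730829177716 814437982604757 1000 11000 1297306791886439389 812833353463530 = true := by decide +kernel

theorem r12 : run QQ 5 4 25 16 1386206062893329718 815925928392396 1000 12000 1341596730829177716 814437982604757 = true := by decide +kernel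

theorem r13 : run QQ 5 4 25 16 1427254479443502001 817193943862567 1000 13000 1386206062893329718 815925928392396 = true := by decide +kernel

theorem r14 : run QQ 5 4 25 16 1465357174868580177 818287769468001 1000 14000 1427254479443502001 817193943862567 = true := by decide +kernel

theorem r15 : run QQ 5 4 25 16 1504173309565105409 819332063190873 1000 15000 1465357174868580177 818287769468001 = true := by decide +kernel

theorem r16 : run QQ 5 4 25 16 1538059535461735632 820188186748660 1000 16000 1504173309565105409 819332063190873 = true := by decide +kernel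

theorem r17 : run QQ 5 4 25 16 1572716420966735086 821013407915791 1000 17000 1538059535461735632 820188186748660 = true := by decide +kernel

theorem r18 : run QQ 5 4 25 16 1603045723763600996 821698303706659 1000 18000 1572716420966735086 821013407915791 = true := by decide +kernel

theorem r19 : run QQ 5 4 25 16 1635423948613258537 822390143071950 1000 19000 1603045723763600996 821698303706659 = true := by decide +kernel

theorem r20 : run QQ 5 4 25 16 1665032829527894861 822992578168178 1000 20000 1635423948613258537 822390143071950 = true := by decide +kernel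

theorem r21 : run QQ 5 4 25 16 1695533442873288879 823584179558705 1000 21000 1665032829527894861 822992578168178 = true := by decide +kernel

theorem r22 : run QQ 5 4 25 16 1724060646091084456 824113109329344 1000 22000 1695533442873288879 823584179558705 = true := by decide +kernel

theorem r23 : run QQ 5 4 25 16 1752924443126757167 824625172049260 1000 23000 1724060646091084456 824113109329344 = true := by decide +kernel

theorem r24 : run QQ 5 4 25 16 1778353804572717842 825058145630125 1000 24000 1752924443126757167 824625172049260 = true := by decide +kernel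

theorem r25 : run QQ 5 4 25 16 1804159537319782930 825479703867527 1000 25000 1778353804572717842 825058145630125 = true := by decide +kernel

theorem r26 : run QQ 5 4 25 16 1830121991560451705 825887823600478 1000 26000 1804159537319782930 825479703867527 = true := by decide +kernel

theorem r27 : run QQ 5 4 25 16 1853712098942467687 826244986668995 1000 27000 1830121991560451705 825887823600478 = true := by decide +kernel

theorem r28 : run QQ 5 4 25 16 1877767696044855226 826596670014816 1000 28000 1853712098942467687 826244986668995 = true := by decide +kernel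

theorem r29 : run QQ 5 4 25 16 1900592559664724830 826919236250768 1030 29000 1877767696044855226 826596670014816 = true := by decide +kernel

theorem chainA (G cost : ℕ → ℝ)
    (hG : ∀ j, 200 ≤ j → j < 3000 → j.Prime → G (j+1) ≤ G j * (1 + ((4:ℕ):ℝ)/((3:ℕ):ℝ) * (3 * (j:ℝ) - 1) / ((j:ℝ) - 1)^2))
    (hGn : ∀ j, 200 ≤ j → ¬ j.Prime → G (j+1) ≤ G j)
    (hc : ∀ j, 200 ≤ j → j < 3000 → j.Prime → cost j ≤ G j * (((4:ℕ):ℝ)/((3:ℕ):ℝ) / ((j:ℝ) - 1)^2))
    (h0 : Inv G cost 200 152893770727796798 516524834918961) :
    Inv G cost 3000 741640375205102383 771546089040402 := by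
  have a0 := h0
  have a1 : Inv G cost 1000 413685960539864138 707662498587643 := run_sound G cost QQ 4 3 4 3 413685960539864138 707662498587643 (by norm_num) (by norm_num) 800 200 152893770727796798 516524834918961 (by norm_num) (fun j h1 h2 hp => gcd_QQ j (by omega) hp) (fun j h1 h2 hp => hG j (by omega) (by omega) hp) (fun j h1 h2 hp => hGn j (by omega) hp) (fun j h1 h2 hp => hc j (by omega) (by omega) hp) r0 a0
  have a2 : Inv G cost 2000 603345038199389666 752689983797369 := run_sound G cost QQ 4 3 4 3 603345038199389666 752689983797369 (by norm_num) (by norm_num) 1000 1000 413685960539864138 707662498587643 (by norm_num) (fun j h1 h2 hp => gcd_QQ j (by omega) hp) (fun j h1 h2 hp => hG j (by omega) (by omega) hp) (fun j h1 h2 hp => hGn j (by omega) hp) (fun j h1 h2 hp => hc j (by omega) (by omega) hp) r1 a1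
  have a3 : Inv G cost 3000 741640375205102383 771546089040402 := run_sound G cost QQ 4 3 4 3 741640375205102383 771546089040402 (by norm_num) (by norm_num) 1000 2000 603345038199389666 752689983797369 (by norm_num) (fun j h1 h2 hp => gcd_QQ j (by omega) hp) (fun j h1 h2 hp => hG j (by omega) (by omega) hp) (fun j h1 h2 hp => hGn j (by omega) hp) (fun j h1 h2 hp => hc j (by omega) (by omega) hp) r2 a2
  exact a3

theorem chainB (G cost : ℕ → ℝ)
    (hG : ∀ j, 3000 ≤ j → j.Prime → G (j+1) ≤ G j * (1 + ((5:ℕ):ℝ)/((4:ℕ):ℝ) * (3 * (j:ℝ) - 1) / ((j:ℝ) - 1)^2))
    (hGn : ∀ j, 3000 ≤ j → ¬ j.Prime → G (j+1) ≤ G j)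
    (hc : ∀ j, 3000 ≤ j → j.Prime → cost j ≤ G j * (((25:ℕ):ℝ)/((16:ℕ):ℝ) / ((j:ℝ) - 1)^2))
    (h0 : Inv G cost 3000 741640375205102383 771546089040402) :
    Inv G cost 30030 1900592559664724830 826919236250768 := by
  have a3 := h0
  have a4 : Inv G cost 4000 844173321373339677 783884817436275 := run_sound G cost QQ 5 4 25 16 844173321373339677 783884817436275 (by norm_num) (by norm_num) 1000 3000 741640375205102383 771546089040402 (by norm_num) (fun j h1 h2 hp => gcd_QQ j (by omega) hp) (fun j h1 h2 hp => hG j (by omega) hp) (fun j h1 h2 hp => hGn j (by omega) hp) (fun j h1 h2 hp => hc j (by omega) hp) r3 a3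
  have a5 : Inv G cost 5000 932737964204262108 792156778885786 := run_sound G cost QQ 5 4 25 16 932737964204262108 792156778885786 (by norm_num) (by norm_num) 1000 4000 844173321373339677 783884817436275 (by norm_num) (fun j h1 h2 hp => gcd_QQ j (by omega) hp) (fun j h1 h2 hp => hG j (by omega) hp) (fun j h1 h2 hp => hGn j (by omega) hp) (fun j h1 h2 hp => hc j (by omega) hp) r4 a4
  have a6 : Inv G cost 6000 1008383835517562833 797915331432604 := run_sound G cost QQ 5 4 25 16 1008383835517562833 797915331432604 (by norm_num) (by norm_num) 1000 5000 932737964204262108 792156778885786 (by norm_num) (fun j h1 h2 hp => gcd_QQ j (by omega) hp) (fun j h1 h2 hp => hG j (by omega) hp) (fun j h1 h2 hp => hGn j (by omega) hp) (fun j h1 h2 hp => hc j (by omega) hp) r5 a5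
  have a7 : Inv G cost 7000 1078925414296823953 802450784720347 := run_sound G cost QQ 5 4 25 16 1078925414296823953 802450784720347 (by norm_num) (by norm_num) 1000 6000 1008383835517562833 797915331432604 (by norm_num) (fun j h1 h2 hp => gcd_QQ j (by omega) hp) (fun j h1 h2 hp => hG j (by omega) hp) (fun j h1 h2 hp => hGn j (by omega) hp) (fun j h1 h2 hp => hc j (by omega) hp) r6 a6
  have a8 : Inv G cost 8000 1138257914892141128 805752042495542 := run_sound G cost QQ 5 4 25 16 1138257914892141128 805752042495542 (by norm_num) (by norm_num) 1000 7000 1078925414296823953 802450784720347 (by norm_num) (fun j h1 h2 hp => gcd_QQ j (by omega) hp) (fun j h1 h2 hp => hG j (by omega) hp) (fun j h1 h2 hp => hGn j (by omega) hp) (fun j h1 h2 hp => hc j (by omega) hp) r7 a7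
  have a9 : Inv G cost 9000 1194909453934018878 808533500919463 := run_sound G cost QQ 5 4 25 16 1194909453934018878 808533500919463 (by norm_num) (by norm_num) 1000 8000 1138257914892141128 805752042495542 (by norm_num) (fun j h1 h2 hp => gcd_QQ j (by omega) hp) (fun j h1 h2 hp => hG j (by omega) hp) (fun j h1 h2 hp => hGn j (by omega) hp) (fun j h1 h2 hp => hc j (by omega) hp) r8 a8
  have a10 : Inv G cost 10000 1249042884159787126 810914319413251 := run_sound G cost QQ 5 4 25 16 1249042884159787126 810914319413251 (by norm_num) (by norm_num) 1000 9000 1194909453934018878 808533500919463 (by norm_num) (fun j h1 h2 hp => gcd_QQ j (by omega) hp) (fun j h1 h2 hp => hG j (by omega) hp) (fun j h1 h2 hp => hGn j (by omega) hp) (fun j h1 h2 hp => hc j (by omega) hp) r9 a9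
  have a11 : Inv G cost 11000 1297306791886439389 812833353463530 := run_sound G cost QQ 5 4 25 16 1297306791886439389 812833353463530 (by norm_num) (by norm_num) 1000 10000 1249042884159787126 810914319413251 (by norm_num) (fun j h1 h2 hp => gcd_QQ j (by omega) hp) (fun j h1 h2 hp => hG j (by omega) hp) (fun j h1 h2 hp => hGn j (by omega) hp) (fun j h1 h2 hp => hc j (by omega) hp) r10 a10
  have a12 : Inv G cost 12000 1341596730829177716 814437982604757 := run_sound G cost QQ 5 4 25 16 1341596730829177716 814437982604757 (by norm_num) (by norm_num) 1000 11000 1297306791886439389 812833353463530 (by norm_num) (fun j h1 h2 hp => gcd_QQ j (by omega) hp) (fun j h1 h2 hp => hG j (by omega) hp) (fun j h1 h2 hp => hGn j (by omega) hp) (fun j h1 h2 hp => hc j (by omega) hp) r11 a11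
  have a13 : Inv G cost 13000 1386206062893329718 815925928392396 := run_sound G cost QQ 5 4 25 16 1386206062893329718 815925928392396 (by norm_num) (by norm_num) 1000 12000 1341596730829177716 814437982604757 (by norm_num) (fun j h1 h2 hp => gcd_QQ j (by omega) hp) (fun j h1 h2 hp => hG j (by omega) hp) (fun j h1 h2 hp => hGn j (by omega) hp) (fun j h1 h2 hp => hc j (by omega) hp) r12 a12
  have a14 : Inv G cost 14000 1427254479443502001 817193943862567 := run_sound G cost QQ 5 4 25 16 1427254479443502001 817193943862567 (by norm_num) (by norm_num) 1000 13000 1386206062893329718 815925928392396 (by norm_num) (fun j h1 h2 hp => gcd_QQ j (by omega) hp) (fun j h1 h2 hp => hG j (by omega) hp) (fun j h1 h2 hp => hGn j (by omega) hp) (fun j h1 h2 hp => hc j (by omega) hp) r13 a13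
  have a15 : Inv G cost 15000 1465357174868580177 818287769468001 := run_sound G cost QQ 5 4 25 16 1465357174868580177 818287769468001 (by norm_num) (by norm_num) 1000 14000 1427254479443502001 817193943862567 (by norm_num) (fun j h1 h2 hp => gcd_QQ j (by omega) hp) (fun j h1 h2 hp => hG j (by omega) hp) (fun j h1 h2 hp => hGn j (by omega) hp) (fun j h1 h2 hp => hc j (by omega) hp) r14 a14
  have a16 : Inv G cost 16000 1504173309565105409 819332063190873 := run_sound G cost QQ 5 4 25 16 1504173309565105409 819332063190873 (by norm_num) (by norm_num) 1000 15000 1465357174868580177 818287769468001 (by norm_num) (fun j h1 h2 hp => gcd_QQ j (by omega) hp) (fun j h1 h2 hp => hG j (by omega) hp) (fun j h1 h2 hp => hGn j (by omega) hp) (fun j h1 h2 hp => hc j (by omega) hp) r15 a15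
  have a17 : Inv G cost 17000 1538059535461735632 820188186748660 := run_sound G cost QQ 5 4 25 16 1538059535461735632 820188186748660 (by norm_num) (by norm_num) 1000 16000 1504173309565105409 819332063190873 (by norm_num) (fun j h1 h2 hp => gcd_QQ j (by omega) hp) (fun j h1 h2 hp => hG j (by omega) hp) (fun j h1 h2 hp => hGn j (by omega) hp) (fun j h1 h2 hp => hc j (by omega) hp) r16 a16
  have a18 : Inv G cost 18000 1572716420966735086 821013407915791 := run_sound G cost QQ 5 4 25 16 1572716420966735086 821013407915791 (by norm_num) (by norm_num) 1000 17000 1538059535461735632 820188186748660 (by norm_num) (fun j h1 h2 hp => gcd_QQ j (by omega) hp) (fun j h1 h2 hp => hG j (by omega) hp) (fun j h1 h2 hp => hGn j (by omega) hp) (fun j h1 h2 hp => hc j (by omega) hp) r17 a17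
  have a19 : Inv G cost 19000 1603045723763600996 821698303706659 := run_sound G cost QQ 5 4 25 16 1603045723763600996 821698303706659 (by norm_num) (by norm_num) 1000 18000 1572716420966735086 821013407915791 (by norm_num) (fun j h1 h2 hp => gcd_QQ j (by omega) hp) (fun j h1 h2 hp => hG j (by omega) hp) (fun j h1 h2 hp => hGn j (by omega) hp) (fun j h1 h2 hp => hc j (by omega) hp) r18 a18
  have a20 : Inv G cost 20000 1635423948613258537 822390143071950 := run_sound G cost QQ 5 4 25 16 1635423948613258537 822390143071950 (by norm_num) (by norm_num) 1000 19000 1603045723763600996 821698303706659 (by norm_num) (fun j h1 h2 hp => gcd_QQ j (by omega) hp) (fun j h1 h2 hp => hG j (by omega) hp) (fun j h1 h2 hp => hGn j (by omega) hp) (fun j h1 h2 hp => hc j (by omega) hp) r19 a19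
  have a21 : Inv G cost 21000 1665032829527894861 822992578168178 := run_sound G cost QQ 5 4 25 16 1665032829527894861 822992578168178 (by norm_num) (by norm_num) 1000 20000 1635423948613258537 822390143071950 (by norm_num) (fun j h1 h2 hp => gcd_QQ j (by omega) hp) (fun j h1 h2 hp => hG j (by omega) hp) (fun j h1 h2 hp => hGn j (by omega) hp) (fun j h1 h2 hp => hc j (by omega) hp) r20 a20
  have a22 : Inv G cost 22000 1695533442873288879 823584179558705 := run_sound G cost QQ 5 4 25 16 1695533442873288879 823584179558705 (by norm_num) (by norm_num) 1000 21000 1665032829527894861 822992578168178 (by norm_num) (fun j h1 h2 hp => gcd_QQ j (by omega) hp) (fun j h1 h2 hp => hG j (by omega) hp) (fun j h1 h2 hp => hGn j (by omega) hp) (fun j h1 h2 hp => hc j (by omega) hp) r21 a21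
  have a23 : Inv G cost 23000 1724060646091084456 824113109329344 := run_sound G cost QQ 5 4 25 16 1724060646091084456 824113109329344 (by norm_num) (by norm_num) 1000 22000 1695533442873288879 823584179558705 (by norm_num) (fun j h1 h2 hp => gcd_QQ j (by omega) hp) (fun j h1 h2 hp => hG j (by omega) hp) (fun j h1 h2 hp => hGn j (by omega) hp) (fun j h1 h2 hp => hc j (by omega) hp) r22 a22
  have a24 : Inv G cost 24000 1752924443126757167 824625172049260 := run_sound G cost QQ 5 4 25 16 1752924443126757167 824625172049260 (by norm_num) (by norm_num) 1000 23000 1724060646091084456 824113109329344 (by norm_num) (fun j h1 h2 hp => gcd_QQ j (by omega) hp) (fun j h1 h2 hp => hG j (by omega) hp) (fun j h1 h2 hp => hGn j (by omega) hp) (fun j h1 h2 hp => hc j (by omega) hp) r23 a23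
  have a25 : Inv G cost 25000 1778353804572717842 825058145630125 := run_sound G cost QQ 5 4 25 16 1778353804572717842 825058145630125 (by norm_num) (by norm_num) 1000 24000 1752924443126757167 824625172049260 (by norm_num) (fun j h1 h2 hp => gcd_QQ j (by omega) hp) (fun j h1 h2 hp => hG j (by omega) hp) (fun j h1 h2 hp => hGn j (by omega) hp) (fun j h1 h2 hp => hc j (by omega) hp) r24 a24
  have a26 : Inv G cost 26000 1804159537319782930 825479703867527 := run_sound G cost QQ 5 4 25 16 1804159537319782930 825479703867527 (by norm_num) (by norm_num) 1000 25000 1778353804572717842 825058145630125 (by norm_num) (fun j h1 h2 hp => gcd_QQ j (by omega) hp) (fun j h1 h2 hp => hG j (by omega) hp) (fun j h1 h2 hp => hGn j (by omega) hp) (fun j h1 h2 hp => hc j (by omega) hp) r25 a25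
  have a27 : Inv G cost 27000 1830121991560451705 825887823600478 := run_sound G cost QQ 5 4 25 16 1830121991560451705 825887823600478 (by norm_num) (by norm_num) 1000 26000 1804159537319782930 825479703867527 (by norm_num) (fun j h1 h2 hp => gcd_QQ j (by omega) hp) (fun j h1 h2 hp => hG j (by omega) hp) (fun j h1 h2 hp => hGn j (by omega) hp) (fun j h1 h2 hp => hc j (by omega) hp) r26 a26
  have a28 : Inv G cost 28000 1853712098942467687 826244986668995 := run_sound G cost QQ 5 4 25 16 1853712098942467687 826244986668995 (by norm_num) (by norm_num) 1000 27000 1830121991560451705 825887823600478 (by norm_num) (fun j h1 h2 hp => gcd_QQ j (by omega) hp) (fun j h1 h2 hp => hG j (by omega) hp) (fun j h1 h2 hp => hGn j (by omega) hp) (fun j h1 h2 hp => hc j (by omega) hp) r27 a27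
  have a29 : Inv G cost 29000 1877767696044855226 826596670014816 := run_sound G cost QQ 5 4 25 16 1877767696044855226 826596670014816 (by norm_num) (by norm_num) 1000 28000 1853712098942467687 826244986668995 (by norm_num) (fun j h1 h2 hp => gcd_QQ j (by omega) hp) (fun j h1 h2 hp => hG j (by omega) hp) (fun j h1 h2 hp => hGn j (by omega) hp) (fun j h1 h2 hp => hc j (by omega) hp) r28 a28
  have a30 : Inv G cost 30030 1900592559664724830 826919236250768 := run_sound G cost QQ 5 4 25 16 1900592559664724830 826919236250768 (by norm_num) (by norm_num) 1030 29000 1877767696044855226 826596670014816 (by norm_num) (fun j h1 h2 hp => gcd_QQ j (by omega) hp) (fun j h1 h2 hp => hG j (by omega) hp) (fun j h1 h2 hp => hGn j (by omega) hp) (fun j h1 h2 hp => hc j (by omega) hp) r29 a29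
  exact a30

end Pool.Agent.H28.Cov
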