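import Pool.Agent.H28.Cov.NumTail

namespace Pool.Agent.H28.Cov

open Finset

theorem real_ineq (k : ℝ) (hk : 13 ≤ k) :
    480 * ((5/4) * (3*(2310*k)+2)/(2310*k)^2) < 1 ∧
    (1/(1-480*((5/4) * (3*(2310*k)+2)/(2310*k)^2))) *
      (480 * ((25/16)/(2310*k)^2) + (1/1050)/(k+1)) ≤ (1/1050)/k := by
  have hk0 : 0 < k := by linarith
  have hy : 480 * ((5/4) * (3*(2310*k)+2)/(2310*k)^2) = (4158000*k+1200)/(5336100*k^2) := by
    field_simp
    ring
  have hlt : (4158000*k+1200)/(5336100*k^2) < 1 := by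
    rw [div_lt_one (by positivity)]
    nlinarith
  rw [hy]
  refine ⟨hlt, ?_⟩
  rw [div_mul_eq_mul_div, one_mul, div_le_iff₀ (by linarith)]
  have h1 : 480 * ((25/16 : ℝ)/(2310*k)^2) + (1/1050)/(k+1)
      = (750*(k+1)*1050 + 5336100*k^2) / (5336100*k^2*(k+1)*1050) := by
    field_simp
    ring
  have h2 : (1/1050 : ℝ)/k * (1 - (4158000*k+1200)/(5336100*k^2))
      = (5336100*k^2 - 4158000*k - 1200) / (1050*k*(5336100*k^2)) := by
    field_simp
    ring
  rw [h1, h2, div_le_div_iff₀ (by positivity) (by positivity)]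
  have h3 : 0 < k^2 := by positivity
  have key : (750*(k+1)*1050 + 5336100*k^2) * k ≤ (5336100*k^2 - 4158000*k - 1200) * (k+1) := by
    nlinarith [mul_nonneg (sub_nonneg.2 hk) (sub_nonneg.2 hk)]
  have h4 : 0 ≤ 1050*(5336100*k^2) := by positivity
  calc (750*(k+1)*1050 + 5336100*k^2) * (1050*k*(5336100*k^2))
      = ((750*(k+1)*1050 + 5336100*k^2) * k) * (1050*(5336100*k^2)) := by ring
    _ ≤ ((5336100*k^2 - 4158000*k - 1200) * (k+1)) * (1050*(5336100*k^2)) :=
        mul_le_mul_of_nonneg_right key h4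
    _ = _ := by ring

theorem x_mono {a u : ℝ} (ha : 0 < a) (hu : a ≤ u) :
    (5/4) * (3*(u+1) - 1)/u^2 ≤ (5/4) * (3*a+2)/a^2 := by
  have hu0 : 0 < u := by linarith
  rw [div_le_div_iff₀ (by positivity) (by positivity)]
  have h1 : a^2 ≤ u^2 := by nlinarith
  have h2 : u * a^2 ≤ a * u^2 := by nlinarith [mul_pos ha hu0]
  nlinarith

theorem tail_bound (G : ℕ → ℝ) (cost : ℕ → ℝ) (hG0 : ∀ i, 0 ≤ G i)
    (hGp : ∀ i, 3000 ≤ i → i.Prime → G (i+1) ≤ G i * (1 + (5/4) * (3 * (i:ℝ) - 1) / ((i:ℝ) - 1)^2))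
    (hGn : ∀ i, 3000 ≤ i → ¬ i.Prime → G (i+1) ≤ G i)
    (hc : ∀ j, 3000 ≤ j → j.Prime → cost j ≤ G j * ((25/16) / ((j:ℝ) - 1)^2)) (m : ℕ) :
    ∀ k K : ℕ, 13 ≤ k → 2310 * k ≤ K → K ≤ 2310 * (k + m) →
      TT cost K ≤ TT cost (2310*k) + G (2310*k) * ((1/1050) / (k:ℝ)) := by
  induction m with
  | zero =>
    intro k K hk h1 h2
    have : K = 2310 * k := by omega
    subst this
    have : 0 ≤ G (2310*k) * ((1/1050) / (k:ℝ)) := mul_nonneg (hG0 _) (by positivity)
    linarith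
  | succ m ih =>
    intro k K hk h1 h2
    set a := 2310 * k with ha
    have hkR : (13:ℝ) ≤ k := by exact_mod_cast hk
    have haR : (a:ℝ) = 2310 * (k:ℝ) := by rw [ha]; push_cast; ring
    have ha0 : (0:ℝ) < a := by rw [haR]; linarith
    set x : ℝ := (5/4) * (3*(2310*(k:ℝ))+2)/(2310*(k:ℝ))^2 with hx
    set y : ℝ := (25/16)/(2310*(k:ℝ))^2 with hy
    have hx0 : 0 ≤ x := by rw [hx]; positivity
    have hy0 : 0 ≤ y := by rw [hy]; positivity
    obtain ⟨hr1, hr2⟩ := real_ineq k hkR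
    rw [← hx] at hr1 hr2
    rw [← hy] at hr2
    obtain ⟨N, hN⟩ : ∃ N : ℕ, N = 480 := ⟨_, rfl⟩
    have hgrow := grow_le x hx0 hr1
    rw [← hN] at hgrow
    have hnp : ∀ i, a ≤ i → i.Prime → (a:ℝ) ≤ (i:ℝ) - 1 := by
      intro i hi hp
      have : a ≠ i := by
        intro h
        have h2 : (2:ℕ) ∣ i := by rw [← h, ha]; omega
        have := (Nat.prime_dvd_prime_iff_eq Nat.prime_two hp).1 h2
        omega
      have h3 : a + 1 ≤ i := by omega
      have : ((a + 1 : ℕ) : ℝ) ≤ i := by exact_mod_cast h3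
      push_cast at this
      linarith
    have gp : ∀ i, a ≤ i → i.Prime → G (i+1) ≤ G i * (1 + x) := by
      intro i hi hp
      refine (hGp i (by omega) hp).trans ?_
      apply mul_le_mul_of_nonneg_left _ (hG0 i)
      have := x_mono ha0 (hnp i hi hp)
      have e : ((i:ℝ) - 1 + 1) = i := by ring
      rw [e, haR] at this
      rw [hx]
      linarith
    have gn : ∀ i, a ≤ i → ¬ i.Prime → G (i+1) ≤ G i := fun i hi hp => hGn i (by omega) hp
    have cc : ∀ i, a ≤ i → i.Prime → cost i ≤ G i * y := by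
      intro i hi hp
      refine (hc i (by omega) hp).trans ?_
      apply mul_le_mul_of_nonneg_left _ (hG0 i)
      have h3 := hnp i hi hp
      rw [hy, ← haR]
      apply div_le_div_of_nonneg_left (by norm_num) (by positivity)
      exact pow_le_pow_left₀ ha0.le h3 2
    have hpcb := pc_block hk
    rw [← ha, ← hN] at hpcb
    have hNR : (N:ℝ) = 480 := by rw [hN]; norm_num
    have hgk : (0:ℝ) ≤ (1+x)^N := by positivity
    have main : (480:ℝ) * (G a * (1+x)^N * y) + G a * (1+x)^N * ((1/1050)/((k:ℝ)+1))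
        ≤ G a * ((1/1050)/(k:ℝ)) := by
      have h5 : (480:ℝ) * (G a * (1+x)^N * y) + G a * (1+x)^N * ((1/1050)/((k:ℝ)+1))
        = G a * ((1+x)^N * (480*y + (1/1050)/((k:ℝ)+1))) := by ring
      rw [h5]
      apply mul_le_mul_of_nonneg_left _ (hG0 a)
      refine le_trans ?_ hr2
      apply mul_le_mul_of_nonneg_right hgrow
      positivity
    have hpos1 : 0 ≤ G a * (1+x)^N * y := mul_nonneg (mul_nonneg (hG0 a) hgk) hy0
    have hpos2 : 0 ≤ G a * (1+x)^N * ((1/1050)/((k:ℝ)+1)) :=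
      mul_nonneg (mul_nonneg (hG0 a) hgk) (by positivity)
    by_cases hK : K ≤ a + 2310
    · obtain ⟨r, rfl⟩ : ∃ r, K = a + r := ⟨K - a, by omega⟩
      have hr : pc a r ≤ N := (pc_mono (by omega)).trans hpcb
      have h6 := block_cost G cost hG0 x y hx0 hy0 a N (by omega) gp gn cc r hr
      have h7 : ((pc a r : ℕ):ℝ) * (G a * (1+x)^N * y) ≤ 480 * (G a * (1+x)^N * y) := by
        apply mul_le_mul_of_nonneg_right _ hpos1
        rw [← hNR]; exact_mod_cast hr
      linarith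
    · have h6 := block_cost G cost hG0 x y hx0 hy0 a N (by omega) gp gn cc 2310 hpcb
      have h7 : ((pc a 2310 : ℕ):ℝ) * (G a * (1+x)^N * y) ≤ 480 * (G a * (1+x)^N * y) := by
        apply mul_le_mul_of_nonneg_right _ hpos1
        rw [← hNR]; exact_mod_cast hpcb
      have h8 := ih (k+1) K (by omega) (by omega) (by omega)
      have e8 : 2310 * (k+1) = a + 2310 := by omega
      rw [e8] at h8
      have h9 := block_growth G hG0 x hx0 a gp gn 2310
      have h10 : (1+x)^(pc a 2310) ≤ (1+x)^N := pow_le_pow_right₀ (by linarith) hpcb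
      have h11 : G (a+2310) * ((1/1050)/(((k+1 : ℕ):ℝ))) ≤ G a * (1+x)^N * ((1/1050)/((k:ℝ)+1)) := by
        push_cast
        apply mul_le_mul_of_nonneg_right _ (by positivity)
        exact h9.trans (mul_le_mul_of_nonneg_left h10 (hG0 a))
      linarith

end Pool.Agent.H28.Cov
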