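import Pool.Agent.H28.Cov.NumChain
import Pool.Agent.H28.Cov.NumMid
import Pool.Agent.H28.Cov.NumTail2

namespace Pool.Agent.H28.Cov

open Finset

theorem del_lo {j : ℕ} (h : 200 ≤ j) (h' : j < 3000) : del j = 1/4 := by
  unfold del delQ
  rw [if_neg (by omega), if_neg (by omega), if_neg (by omega), if_neg (by omega), if_neg (by omega),
    if_neg (by omega), if_neg (by omega), if_neg (by omega)]
  norm_num

theorem del_hi {j : ℕ} (h : 3000 ≤ j) : del j = 1/5 := by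
  unfold del delQ
  rw [if_neg (by omega), if_neg (by omega), if_neg (by omega), if_neg (by omega), if_neg (by omega),
    if_neg (by omega), if_neg (by omega), if_pos h]
  norm_num

theorem conv_lo (g x : ℝ) (hx : x ≠ 0) :
    g / (4 * (1/4) * (1 - 1/4) * x^2) = g * (((4:ℕ):ℝ)/((3:ℕ):ℝ) / x^2) := by
  have e : (4 * (1/4) * (1 - 1/4) : ℝ) = 3/4 := by norm_num
  rw [e]; push_cast; field_simp

theorem conv_hi (g x : ℝ) (hx : x ≠ 0) :
    g / (4 * (1/5) * (1 - 1/5) * x^2) = g * (((25:ℕ):ℝ)/((16:ℕ):ℝ) / x^2) := by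
  have e : (4 * (1/5) * (1 - 1/5) : ℝ) = 16/25 := by norm_num
  rw [e]; push_cast; field_simp

theorem sub_one_ne {j : ℕ} (h : 7 ≤ j) : (j:ℝ) - 1 ≠ 0 := by
  have : (7:ℝ) ≤ j := by exact_mod_cast h
  intro h'
  linarith

theorem numeric_bound (F G : ℕ → ℝ) (P : ℕ → ℕ → ℝ) (cost : ℕ → ℝ)
    (hF7 : F 7 ≤ 11/6) (hG7 : G 7 ≤ 4) (hP7 : ∀ n, 1 ≤ n → n ≤ 100 → P 7 n ≤ p7 n)
    (hF0 : ∀ i, 0 ≤ F i) (hG0 : ∀ i, 0 ≤ G i) (hP0 : ∀ i n, 0 ≤ P i n)
    (hFp : ∀ i, 7 ≤ i → i.Prime → F (i+1) ≤ F i * (1 + nu i / ((i:ℝ) - 1)))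
    (hFn : ∀ i, 7 ≤ i → ¬ i.Prime → F (i+1) ≤ F i)
    (hGp : ∀ i, 7 ≤ i → i.Prime → G (i+1) ≤ G i * (1 + nu i * (3 * (i:ℝ) - 1) / ((i:ℝ) - 1)^2))
    (hGn : ∀ i, 7 ≤ i → ¬ i.Prime → G (i+1) ≤ G i)
    (hPp : ∀ i, 7 ≤ i → i.Prime → ∀ n, 1 ≤ n → n ≤ 100 →
      P (i+1) n ≤ ∑ d ∈ n.divisors, P i (n / d) * rho i (d - 1))
    (hPn : ∀ i, 7 ≤ i → ¬ i.Prime → ∀ n, 1 ≤ n → n ≤ 100 → P (i+1) n ≤ P i n)
    (hc1 : ∀ j, 7 ≤ j → j.Prime → j < 300 →
      cost j ≤ nu j / ((j:ℝ) - 1) * (F j - del j * ((j:ℝ) - 1)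
        + ∑ n ∈ Finset.Icc (1:ℕ) 100, max (del j * ((j:ℝ) - 1) - (n:ℝ)) 0 * P j n))
    (hc2 : ∀ j, 7 ≤ j → j.Prime →
      cost j ≤ G j / (4 * del j * (1 - del j) * ((j:ℝ) - 1)^2))
    (K : ℕ) :
    ∑ j ∈ (range K).filter (fun j => 7 ≤ j ∧ j.Prime), cost j < 1 := by
  have H : Hyp F G P cost := ⟨hP0, hF0, hG0, hFp, hFn, hGp, hGn, hPp, hPn, hc1⟩
  have h200 := chain F G P cost H hF7 hG7 hP7
  have h3000 : Inv G cost 3000 741640375205102383 771546089040402 := by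
    -- only the indices in `[200, 3000)` are used
    refine chainA G cost ?_ ?_ ?_ h200
    · intro j h1 h2 hp
      have := hGp j (by omega) hp
      have e : nu j = ((4:ℕ):ℝ)/((3:ℕ):ℝ) := by unfold nu; rw [del_lo h1 h2]; norm_num
      rw [e] at this
      exact this
    · intro j h1 hp
      exact hGn j (by omega) hp
    · intro j h1 h2 hp
      refine (hc2 j (by omega) hp).trans (le_of_eq ?_)
      rw [del_lo h1 h2]
      exact conv_lo _ _ (sub_one_ne (by omega))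
  have h30030 : Inv G cost 30030 1900592559664724830 826919236250768 := by
    refine chainB G cost ?_ ?_ ?_ h3000
    · intro j h1 hp
      have := hGp j (by omega) hp
      have e : nu j = ((5:ℕ):ℝ)/((4:ℕ):ℝ) := by unfold nu; rw [del_hi h1]; norm_num
      rw [e] at this
      exact this
    · intro j h1 hp
      exact hGn j (by omega) hp
    · intro j h1 hp
      refine (hc2 j (by omega) hp).trans (le_of_eq ?_)
      rw [del_hi h1]
      exact conv_hi _ _ (sub_one_ne (by omega))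
  change TT cost K < 1
  rcases Nat.lt_or_ge K 30030 with hK | hK
  · refine lt_of_le_of_lt (h30030.ht K hK.le) ?_
    norm_num [SC]
  · have ht := tail_bound G cost hG0 ?_ ?_ ?_ K 13 K le_rfl (by omega) (by omega)
    · have e : 2310 * 13 = 30030 := by norm_num
      rw [e] at ht
      have h1 := h30030.ht 30030 le_rfl
      have h2 := h30030.hg
      have h3 : G 30030 * ((1/1050) / ((13:ℕ):ℝ)) ≤ ((1900592559664724830:ℕ):ℝ)/SC * ((1/1050) / ((13:ℕ):ℝ)) :=
        mul_le_mul_of_nonneg_right h2 (by norm_num)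
      refine lt_of_le_of_lt (ht.trans (add_le_add h1 h3)) ?_
      norm_num [SC]
    · intro i h1 hp
      have := hGp i (by omega) hp
      have e : nu i = 5/4 := by unfold nu; rw [del_hi h1]; norm_num
      rw [e] at this
      exact this
    · intro i h1 hp
      exact hGn i (by omega) hp
    · intro j h1 hp
      refine (hc2 j (by omega) hp).trans (le_of_eq ?_)
      rw [del_hi h1, conv_hi _ _ (sub_one_ne (by omega))]
      norm_num

end Pool.Agent.H28.Cov
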