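import Pool.Agent.H28.Cov.Expect
import Pool.Agent.H28.Cov.Numeric

/-!
The costs are bounded.
-/

namespace Pool.Agent.H28.Cov

open Finset

noncomputable def FF (γ i : ℕ) : ℝ := EE γ (i-7) (fun c => (c:ℝ))
noncomputable def GG (γ i : ℕ) : ℝ := EE γ (i-7) (fun c => (c:ℝ)^2)
noncomputable def PP (γ i n : ℕ) : ℝ := EE γ (i-7) (fun c => if c = n then 1 else 0)
noncomputable def CC (γ j : ℕ) : ℝ := EE γ (j-7) (HH γ 0 j)

theorem nu5 : nu 5 = 4/3 := by
  unfold nu del delQ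
  norm_num

theorem FF7 (γ : ℕ) : FF γ 7 ≤ 11/6 := by
  have h := sum_rhog_lin γ 5 (by norm_num)
  have h0 := sum_rhog γ 5
  have e1 : ∑ v ∈ range (γ+1), rhog γ 5 v * ((1 + v : ℕ):ℝ) =
      ∑ v ∈ range (γ+1), rhog γ 5 v * (1 + (v:ℝ)) := by
    apply Finset.sum_congr rfl; intro v _; push_cast; ring
  have e2 : ∑ v ∈ range (γ+1), rhog γ 5 v * ((2 + v : ℕ):ℝ) =
      ∑ v ∈ range (γ+1), rhog γ 5 v * (1 + (v:ℝ)) + ∑ v ∈ range (γ+1), rhog γ 5 v := by
    rw [← Finset.sum_add_distrib]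
    apply Finset.sum_congr rfl; intro v _; push_cast; ring
  simp only [FF, Nat.sub_self, EE]
  rw [e1, e2, h0]
  rw [nu5] at h
  norm_num at h
  linarith

theorem GG7 (γ : ℕ) : GG γ 7 ≤ 4 := by
  have h := sum_rhog_lin γ 5 (by norm_num)
  have h' := sum_rhog_sq γ 5 (by norm_num)
  have h0 := sum_rhog γ 5
  have e1 : ∑ v ∈ range (γ+1), rhog γ 5 v * ((1 + v : ℕ):ℝ)^2 =
      ∑ v ∈ range (γ+1), rhog γ 5 v * (1 + (v:ℝ))^2 := by
    apply Finset.sum_congr rfl; intro v _; push_cast; ring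
  have e2 : ∑ v ∈ range (γ+1), rhog γ 5 v * ((2 + v : ℕ):ℝ)^2 =
      ∑ v ∈ range (γ+1), rhog γ 5 v * (1 + (v:ℝ))^2
      + 2 * ∑ v ∈ range (γ+1), rhog γ 5 v * (1 + (v:ℝ)) + ∑ v ∈ range (γ+1), rhog γ 5 v := by
    rw [Finset.mul_sum, ← Finset.sum_add_distrib, ← Finset.sum_add_distrib]
    apply Finset.sum_congr rfl; intro v _; push_cast; ring
  simp only [GG, Nat.sub_self, EE]
  rw [e1, e2, h0]
  rw [nu5] at h h'
  norm_num at h h'
  linarith

theorem rhog_eq_rho (γ p k : ℕ) (hp : p.Prime) (hk : k < γ) : rhog γ p k = rho p k := by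
  unfold rhog rho
  rw [if_pos hk]
  by_cases h : k = 0
  · subst h
    simp [rg, hp]
  · rw [if_neg h]
    obtain ⟨j, rfl⟩ : ∃ j, k = j + 1 := ⟨k - 1, by omega⟩
    rw [rg_succ _ _ hp, rg_succ _ _ hp]
    ring

theorem sum_single (γ k a n : ℕ) (hn : a ≤ n) (hn' : n - a < γ) :
    ∑ v ∈ range (γ+1), rhog γ k v * (if a + v = n then (1:ℝ) else 0) = rhog γ k (n - a) := by
  rw [Finset.sum_eq_single (n - a)]
  · rw [if_pos (by omega), mul_one]
  · intro v _ hv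
    rw [if_neg (by omega), mul_zero]
  · intro h
    exact absurd (Finset.mem_range.mpr (by omega)) h

theorem PP7 (γ : ℕ) (hγ : 1000 ≤ γ) (n : ℕ) (h1 : 1 ≤ n) (h2 : n ≤ 100) : PP γ 7 n ≤ p7 n := by
  simp only [PP, Nat.sub_self, EE]
  rw [sum_single γ 5 1 n h1 (by omega)]
  have hr0 : rho 5 0 = 11/15 := by
    unfold rho
    rw [nu5]
    norm_num
  rcases Nat.lt_or_ge n 2 with h | h
  · have : n = 1 := by omega
    subst this
    have : ∑ v ∈ range (γ+1), rhog γ 5 v * (if 2 + v = 1 then (1:ℝ) else 0) = 0 := by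
      apply Finset.sum_eq_zero
      intro v _
      rw [if_neg (by omega), mul_zero]
    rw [this, rhog_eq_rho γ 5 (1-1) (by norm_num) (by omega)]
    simp only [Nat.sub_self, hr0, p7]
    norm_num
  · rw [sum_single γ 5 2 n h (by omega), rhog_eq_rho γ 5 (n-1) (by norm_num) (by omega),
      rhog_eq_rho γ 5 (n-2) (by norm_num) (by omega)]
    have hrs : ∀ j, 1 ≤ j → rho 5 j = 16/15 * (1/5)^j := by
      intro j hj
      unfold rho
      rw [if_neg (by omega), nu5, pow_succ, one_div_pow]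
      push_cast
      field_simp
      ring
    rcases Nat.lt_or_ge n 3 with h3 | h3
    · have : n = 2 := by omega
      subst this
      rw [show 2 - 2 = 0 by norm_num, show 2 - 1 = 1 by norm_num, hr0, hrs 1 le_rfl]
      unfold p7
      norm_num
    · rw [hrs (n-1) (by omega), hrs (n-2) (by omega)]
      unfold p7
      rw [if_neg (by omega), if_neg (by omega), if_neg (by omega)]
      apply le_of_eq
      ring

theorem EE_succ (γ i : ℕ) (hi : 7 ≤ i) (f : ℕ → ℝ) :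
    EE γ (i + 1 - 7) f =
      EE γ (i - 7) (fun c => ∑ v ∈ range (γ+1), rhog γ i v * f (c * (1 + v))) := by
  obtain ⟨j, rfl⟩ : ∃ j, i = 7 + j := ⟨i - 7, by omega⟩
  have h1 : 7 + j + 1 - 7 = j + 1 := by omega
  have h2 : 7 + j - 7 = j := by omega
  rw [h1, h2]
  rfl

theorem EE_succ_np (γ i : ℕ) (hi : 7 ≤ i) (hp : ¬ i.Prime) (f : ℕ → ℝ) :
    EE γ (i + 1 - 7) f = EE γ (i - 7) f := by
  rw [EE_succ γ i hi]
  congr 1
  funext c
  rw [sum_rhog_np γ i hp (fun v => f (c * (1 + v)))]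
  simp

theorem FF_nonneg (γ i : ℕ) : 0 ≤ FF γ i := EE_nonneg _ _ _ (fun c _ => by positivity)
theorem GG_nonneg (γ i : ℕ) : 0 ≤ GG γ i := EE_nonneg _ _ _ (fun c _ => by positivity)
theorem PP_nonneg (γ i n : ℕ) : 0 ≤ PP γ i n :=
  EE_nonneg _ _ _ (fun c _ => by split_ifs <;> norm_num)

theorem FF_succ (γ i : ℕ) (hi : 7 ≤ i) (hp : i.Prime) :
    FF γ (i+1) ≤ FF γ i * (1 + nu i / ((i:ℝ) - 1)) := by
  unfold FF
  rw [EE_succ γ i hi]
  have : (fun c : ℕ => ∑ v ∈ range (γ+1), rhog γ i v * ((c * (1 + v) : ℕ) : ℝ)) =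
      fun c : ℕ => (∑ v ∈ range (γ+1), rhog γ i v * (1 + (v:ℝ))) * (c:ℝ) := by
    funext c
    rw [Finset.sum_mul]
    apply Finset.sum_congr rfl
    intro v _
    push_cast
    ring
  rw [this, EE_smul, mul_comm]
  exact mul_le_mul_of_nonneg_left (sum_rhog_lin γ i hp) (FF_nonneg γ i)

theorem GG_succ (γ i : ℕ) (hi : 7 ≤ i) (hp : i.Prime) :
    GG γ (i+1) ≤ GG γ i * (1 + nu i * (3 * (i:ℝ) - 1) / ((i:ℝ) - 1)^2) := by
  unfold GG
  rw [EE_succ γ i hi]
  have : (fun c : ℕ => ∑ v ∈ range (γ+1), rhog γ i v * ((c * (1 + v) : ℕ) : ℝ)^2) =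
      fun c : ℕ => (∑ v ∈ range (γ+1), rhog γ i v * (1 + (v:ℝ))^2) * (c:ℝ)^2 := by
    funext c
    rw [Finset.sum_mul]
    apply Finset.sum_congr rfl
    intro v _
    push_cast
    ring
  rw [this, EE_smul, mul_comm]
  exact mul_le_mul_of_nonneg_left (sum_rhog_sq γ i hp) (GG_nonneg γ i)

theorem PP_succ (γ i : ℕ) (hγ : 1000 ≤ γ) (hi : 7 ≤ i) (hp : i.Prime) (n : ℕ) (h1 : 1 ≤ n)
    (h2 : n ≤ 100) :
    PP γ (i+1) n ≤ ∑ d ∈ n.divisors, PP γ i (n / d) * rho i (d - 1) := by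
  unfold PP
  rw [EE_succ γ i hi]
  have e : ∑ d ∈ n.divisors, EE γ (i-7) (fun c => if c = n / d then 1 else 0) * rho i (d-1) =
      EE γ (i-7) (fun c => ∑ d ∈ n.divisors, rho i (d-1) * (if c = n / d then 1 else 0)) := by
    rw [EE_sum]
    apply Finset.sum_congr rfl
    intro d _
    rw [EE_smul, mul_comm]
  rw [e]
  apply EE_mono
  intro c hc
  have hdiv : n.divisors = ((range (γ+1)).filter (fun v => (1 + v) ∣ n)).image (fun v => 1 + v) := by
    ext d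
    simp only [Nat.mem_divisors, Finset.mem_image, Finset.mem_filter, Finset.mem_range]
    constructor
    · rintro ⟨h, h'⟩
      have hd := Nat.le_of_dvd (by omega) h
      have hd0 : d ≠ 0 := by rintro rfl; exact h' (Nat.eq_zero_of_zero_dvd h)
      exact ⟨d - 1, ⟨by omega, by rwa [show 1 + (d - 1) = d by omega]⟩, by omega⟩
    · rintro ⟨v, ⟨_, h⟩, rfl⟩
      exact ⟨h, by omega⟩
  rw [hdiv, Finset.sum_image (by intro a _ b _ h; simpa using h), Finset.sum_filter]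
  apply Finset.sum_le_sum
  intro v hv
  by_cases hvn : (1 + v) ∣ n
  · have hle := Nat.le_of_dvd (by omega) hvn
    rw [if_pos hvn, show 1 + v - 1 = v by omega, rhog_eq_rho γ i v hp (by omega)]
    have hiff : c * (1 + v) = n ↔ c = n / (1 + v) := by
      constructor
      · rintro rfl
        rw [Nat.mul_div_cancel _ (by omega)]
      · intro h
        rw [h, Nat.div_mul_cancel hvn]
    by_cases hcv : c * (1 + v) = n
    · rw [if_pos hcv, if_pos (hiff.mp hcv)]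
    · rw [if_neg hcv, if_neg (fun h => hcv (hiff.mpr h))]
  · rw [if_neg hvn]
    have : ¬ c * (1 + v) = n := fun h => hvn ⟨c, by rw [← h, mul_comm]⟩
    rw [if_neg this, mul_zero]

theorem HH0_eq (γ j c : ℕ) (hj : 7 ≤ j) : HH γ 0 j c =
    nu j / ((j:ℝ) - 1) * max ((c:ℝ) - del j * ((j:ℝ) - 1)) 0 := by
  have h7 : (7:ℝ) ≤ j := by exact_mod_cast hj
  have hpos : 0 < (j:ℝ) - 1 := by linarith
  have : (c:ℝ) / ((j:ℝ) - 1) - del j = ((c:ℝ) - del j * ((j:ℝ) - 1)) / ((j:ℝ) - 1) := by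
    field_simp
  simp only [HH]
  rw [this]
  have h2 : max (((c:ℝ) - del j * ((j:ℝ) - 1)) / ((j:ℝ) - 1)) 0 =
      max ((c:ℝ) - del j * ((j:ℝ) - 1)) 0 / ((j:ℝ) - 1) := by
    rcases le_total ((c:ℝ) - del j * ((j:ℝ) - 1)) 0 with h | h
    · rw [max_eq_right h, max_eq_right (div_nonpos_of_nonpos_of_nonneg h hpos.le), zero_div]
    · rw [max_eq_left h, max_eq_left (div_nonneg h hpos.le)]
  rw [h2]
  ring

theorem CC1 (γ j : ℕ) (hj : 7 ≤ j) (hj' : j < 300) :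
    CC γ j ≤ nu j / ((j:ℝ) - 1) * (FF γ j - del j * ((j:ℝ) - 1)
        + ∑ n ∈ Finset.Icc (1:ℕ) 100, max (del j * ((j:ℝ) - 1) - (n:ℝ)) 0 * PP γ j n) := by
  have h7 : (7:ℝ) ≤ j := by exact_mod_cast hj
  have h300 : (j:ℝ) ≤ 299 := by exact_mod_cast Nat.le_of_lt_succ hj'
  have hpos : 0 < (j:ℝ) - 1 := by linarith
  have hd := del_pos j
  have hd' := del_le j
  set c0 : ℝ := del j * ((j:ℝ) - 1) with hc0
  have hc0' : c0 < 100 := by nlinarith
  have hRHS : FF γ j - c0 + ∑ n ∈ Finset.Icc (1:ℕ) 100, max (c0 - (n:ℝ)) 0 * PP γ j n =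
      EE γ (j-7) (fun c => ((c:ℝ) + (-c0) * 1) +
        ∑ n ∈ Finset.Icc (1:ℕ) 100, max (c0 - (n:ℝ)) 0 * (if c = n then 1 else 0)) := by
    rw [EE_add, EE_add, EE_smul, EE_one, EE_sum]
    simp only [EE_smul]
    unfold FF PP
    ring
  rw [hRHS, ← EE_smul]
  unfold CC
  apply EE_mono
  intro c hc
  rw [HH0_eq γ j c hj]
  apply mul_le_mul_of_nonneg_left _ (div_nonneg (nu_pos j).le hpos.le)
  rw [← hc0]
  have h1 : max ((c:ℝ) - c0) 0 = (c:ℝ) - c0 + max (c0 - c) 0 := by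
    rcases le_total (c:ℝ) c0 with h | h
    · rw [max_eq_right (by linarith), max_eq_left (by linarith)]; ring
    · rw [max_eq_left (by linarith), max_eq_right (by linarith)]; ring
  have h2 : max (c0 - c) 0 ≤ ∑ n ∈ Finset.Icc (1:ℕ) 100, max (c0 - (n:ℝ)) 0 * (if c = n then (1:ℝ) else 0) := by
    by_cases hc' : c ≤ 100
    · rw [Finset.sum_eq_single c]
      · simp
      · intro b _ hb
        rw [if_neg (fun h => hb h.symm), mul_zero]
      · intro h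
        exact absurd (Finset.mem_Icc.mpr ⟨hc, hc'⟩) h
    · have : (100:ℝ) < c := by exact_mod_cast (by omega : 100 < c)
      rw [max_eq_right (by linarith)]
      exact Finset.sum_nonneg (fun n _ => mul_nonneg (le_max_right _ _) (by split_ifs <;> norm_num))
  rw [h1]
  linarith

theorem CC2 (γ j : ℕ) (hj : 7 ≤ j) :
    CC γ j ≤ GG γ j / (4 * del j * (1 - del j) * ((j:ℝ) - 1)^2) := by
  have h7 : (7:ℝ) ≤ j := by exact_mod_cast hj
  have hpos : 0 < (j:ℝ) - 1 := by linarith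
  have hd := del_pos j
  have hd' := del_le j
  have h1d : 0 < 1 - del j := by linarith
  have : GG γ j / (4 * del j * (1 - del j) * ((j:ℝ) - 1)^2) =
      EE γ (j-7) (fun c => (1 / (4 * del j * (1 - del j) * ((j:ℝ) - 1)^2)) * (c:ℝ)^2) := by
    rw [EE_smul]
    unfold GG
    ring
  rw [this]
  unfold CC
  apply EE_mono
  intro c hc
  simp only [HH, nu]
  have hx : (c:ℝ) / ((j:ℝ) - 1) - del j ≤ ((c:ℝ) / ((j:ℝ) - 1))^2 / (4 * del j) := by
    rw [le_div_iff₀ (by positivity)]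
    nlinarith [sq_nonneg ((c:ℝ) / ((j:ℝ) - 1) - 2 * del j)]
  have hx' : max ((c:ℝ) / ((j:ℝ) - 1) - del j) 0 ≤ ((c:ℝ) / ((j:ℝ) - 1))^2 / (4 * del j) :=
    max_le hx (by positivity)
  calc 1 / (1 - del j) * max ((c:ℝ) / ((j:ℝ) - 1) - del j) 0
      ≤ 1 / (1 - del j) * (((c:ℝ) / ((j:ℝ) - 1))^2 / (4 * del j)) :=
        mul_le_mul_of_nonneg_left hx' (by positivity)
    _ = _ := by
      field_simp

theorem cost_lt (γ : ℕ) (hγ : 1000 ≤ γ) (K : ℕ) :
    ∑ j ∈ (range K).filter (fun j => 7 ≤ j ∧ j.Prime), CC γ j < 1 :=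
  numeric_bound (FF γ) (GG γ) (PP γ) (CC γ) (FF7 γ) (GG7 γ) (PP7 γ hγ)
    (FF_nonneg γ) (GG_nonneg γ) (PP_nonneg γ)
    (fun i hi hp => FF_succ γ i hi hp)
    (fun i hi hp => (EE_succ_np γ i hi hp _).le)
    (fun i hi hp => GG_succ γ i hi hp)
    (fun i hi hp => (EE_succ_np γ i hi hp _).le)
    (fun i hi hp n h1 h2 => PP_succ γ i hγ hi hp n h1 h2)
    (fun i hi hp n _ _ => (EE_succ_np γ i hi hp _).le)
    (fun j hj _ hj' => CC1 γ j hj hj')
    (fun j hj _ => CC2 γ j hj) K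

end Pool.Agent.H28.Cov
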