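import Pool.Agent.H28.Cov.NT
import Pool.Agent.H28.Cov.Moments

/-!
Assembly.
-/

namespace Pool.Agent.H28.Cov

open Finset Classical

/-- the part of `m` composed of primes below `k` -/
noncomputable def low (k m : ℕ) : ℕ := ∏ q ∈ range k, q ^ m.factorization q

theorem low_succ (k m : ℕ) : low (k+1) m = low k m * k ^ m.factorization k :=
  Finset.prod_range_succ _ _

theorem eq_low (m j : ℕ) (hm : 2 ≤ m) (h : tp m = j) : low (j+1) m = m := by
  have h1 := Nat.prod_factorization_pow_eq_self (n := m) (by omega)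
  conv_rhs => rw [← h1]
  rw [Finsupp.prod_of_support_subset (s := range (j+1))]
  · rfl
  · intro p hp
    rw [Nat.support_factorization] at hp
    have := le_tp m p hp
    exact Finset.mem_range.mpr (by omega)
  · intro i _
    exact pow_zero _

theorem geom_le (j : ℝ) (hj : 2 ≤ j) (N : ℕ) : ∑ i ∈ range N, 1 / j^(i+1) ≤ 1 / (j - 1) := by
  have hj1 : j - 1 ≠ 0 := by linarith
  have hj0 : j ≠ 0 := by linarith
  have key : ∀ n : ℕ, ∑ i ∈ range n, 1 / j^(i+1) = 1 / (j - 1) * (1 - 1 / j^n) := by
    intro n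
    induction n with
    | zero => simp
    | succ n ih =>
      rw [Finset.sum_range_succ, ih]
      field_simp
      ring
  rw [key]
  have h4 : 0 ≤ 1 / j^N := by positivity
  have h5 : 0 ≤ 1 / (j - 1) := one_div_nonneg.mpr (by linarith)
  nlinarith

theorem sum_w_le (A : Finset ℕ) (hA : ∀ m ∈ A, 2 ≤ m) (j : ℕ) (hj : j.Prime) :
    ∑ m ∈ A.filter (fun m => tp m = j), (1 / (tp m : ℝ)^(m.factorization (tp m))) ≤
      (((A.filter (fun m => tp m = j)).image (low j)).card : ℝ) / ((j:ℝ) - 1) := by
  set B := A.filter (fun m => tp m = j) with hB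
  have hj2 : (2:ℝ) ≤ j := by exact_mod_cast hj.two_le
  rw [← Finset.sum_fiberwise_of_maps_to (s := B) (t := B.image (low j)) (g := low j)
    (fun x hx => Finset.mem_image_of_mem _ hx)]
  have hfib : ∀ l ∈ B.image (low j),
      ∑ m ∈ B.filter (fun m => low j m = l), (1 / (tp m : ℝ)^(m.factorization (tp m))) ≤
        1 / ((j:ℝ) - 1) := by
    intro l _
    set Φ := B.filter (fun m => low j m = l) with hΦ
    have hmem : ∀ m ∈ Φ, 2 ≤ m ∧ tp m = j ∧ low j m = l := by
      intro m hm
      have h1 := Finset.mem_filter.mp hm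
      have h2 := Finset.mem_filter.mp h1.1
      exact ⟨hA m h2.1, h2.2, h1.2⟩
    have hinj : Set.InjOn (fun m : ℕ => m.factorization j - 1) Φ := by
      intro m hm m' hm' h
      obtain ⟨h1, h2, h3⟩ := hmem m hm
      obtain ⟨h1', h2', h3'⟩ := hmem m' hm'
      have hp := fac_tp_pos m h1
      have hp' := fac_tp_pos m' h1'
      rw [h2] at hp
      rw [h2'] at hp'
      have he : m.factorization j = m'.factorization j := by
        have : m.factorization j - 1 = m'.factorization j - 1 := h
        omega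
      rw [← eq_low m j h1 h2, ← eq_low m' j h1' h2', low_succ, low_succ, h3, h3', he]
    have hsum : ∑ m ∈ Φ, (1 / (tp m : ℝ)^(m.factorization (tp m))) =
        ∑ i ∈ Φ.image (fun m : ℕ => m.factorization j - 1), 1 / (j:ℝ)^(i+1) := by
      rw [Finset.sum_image hinj]
      apply Finset.sum_congr rfl
      intro m hm
      obtain ⟨h1, h2, h3⟩ := hmem m hm
      have hp := fac_tp_pos m h1
      rw [h2] at hp ⊢
      rw [Nat.sub_add_cancel hp]
    rw [hsum]
    have hsub : Φ.image (fun m : ℕ => m.factorization j - 1) ⊆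
        range ((Φ.image (fun m : ℕ => m.factorization j - 1)).sup id + 1) := by
      intro i hi
      exact Finset.mem_range.mpr (Nat.lt_succ_of_le (Finset.le_sup (f := id) hi))
    refine (Finset.sum_le_sum_of_subset_of_nonneg hsub (fun i _ _ => by positivity)).trans ?_
    exact geom_le j hj2 _
  refine (Finset.sum_le_sum hfib).trans ?_
  rw [Finset.sum_const, nsmul_eq_mul]
  apply le_of_eq
  ring

section

variable (S : Finset ℕ) (a : ℕ → ℤ) (h2 : ∀ m ∈ S, 2 ≤ m)

theorem rho_eq (k v : ℕ) : (mkSys S a h2).rho k v = rhog (1000 + S.sup id) k v := rfl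

/-- trivial coordinate -/
theorem T_triv (n k : ℕ) (A : Finset ℕ) (hk : ∀ m ∈ A, m.factorization k = 0) :
    (mkSys S a h2).T (n+1) k A = (mkSys S a h2).T n (k+1) A := by
  rw [Sys.T]
  have h : ∀ v ∈ range ((mkSys S a h2).γ + 1), (mkSys S a h2).rho k v *
      (mkSys S a h2).T n (k+1) (A.filter (fun m => (mkSys S a h2).e k m ≤ v)) =
      rhog (1000 + S.sup id) k v * (mkSys S a h2).T n (k+1) A := by
    intro v _
    have : A.filter (fun m => (mkSys S a h2).e k m ≤ v) = A := by
      apply Finset.filter_true_of_mem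
      intro m hm
      change m.factorization k ≤ v
      rw [hk m hm]
      omega
    rw [this]
    rfl
  rw [Finset.sum_congr rfl h, ← Finset.sum_mul]
  have : ∑ v ∈ range ((mkSys S a h2).γ + 1), rhog (1000 + S.sup id) k v = 1 :=
    sum_rhog (1000 + S.sup id) k
  rw [this, one_mul]

/-- zero cost -/
theorem T_zero : ∀ (n k : ℕ) (A : Finset ℕ),
    ∑ m ∈ A.filter (fun m => tp m = k + n), (1 / (tp m : ℝ)^(m.factorization (tp m))) ≤
      del (k + n) → (mkSys S a h2).T n k A = 0
  | 0, k, A => by
    intro h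
    rw [Sys.T, Sys.term]
    have : max (∑ m ∈ A.filter (fun m => (mkSys S a h2).top m = k), (mkSys S a h2).w m -
        (mkSys S a h2).δ k) 0 = 0 := by
      apply max_eq_right
      have : ∑ m ∈ A.filter (fun m => (mkSys S a h2).top m = k), (mkSys S a h2).w m ≤
        (mkSys S a h2).δ k := h
      linarith
    rw [this, mul_zero]
  | n+1, k, A => by
    intro h
    rw [Sys.T]
    apply Finset.sum_eq_zero
    intro v _
    rw [T_zero n (k+1), mul_zero]
    have e : k + 1 + n = k + (n + 1) := by omega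
    rw [e]
    refine le_trans ?_ h
    apply Finset.sum_le_sum_of_subset_of_nonneg
    · exact Finset.filter_subset_filter _ (Finset.filter_subset _ _)
    · intro m _ _
      positivity

/-- the main comparison -/
theorem T_le : ∀ (n k : ℕ) (A : Finset ℕ) (c : ℕ), A ⊆ S → (k + n).Prime →
    ((A.filter (fun m => tp m = k + n)).image (low k)).card ≤ c →
    (mkSys S a h2).T n k A ≤ HH (1000 + S.sup id) n k c
  | 0, k, A, c => by
    intro hA hp hc
    rw [Sys.T, Sys.term]
    change 1 / (1 - del k) * max (∑ m ∈ A.filter (fun m => tp m = k),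
      (1 / (tp m : ℝ)^(m.factorization (tp m))) - del k) 0 ≤
      nu k * max ((c:ℝ) / ((k:ℝ) - 1) - del k) 0
    rw [add_zero] at hp hc
    have hk2 : (2:ℝ) ≤ k := by exact_mod_cast hp.two_le
    have h1 := sum_w_le A (fun m hm => h2 m (hA hm)) k hp
    have h3 : (((A.filter (fun m => tp m = k)).image (low k)).card : ℝ) / ((k:ℝ) - 1) ≤
        (c:ℝ) / ((k:ℝ) - 1) := by
      apply div_le_div_of_nonneg_right _ (by linarith)
      exact_mod_cast hc
    apply mul_le_mul_of_nonneg_left _ (nu_pos k).le
    exact max_le_max (by linarith) le_rfl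
  | n+1, k, A, c => by
    intro hA hp hc
    rw [Sys.T, HH]
    apply Finset.sum_le_sum
    intro v _
    apply mul_le_mul_of_nonneg_left _ (rhog_nonneg _ k v)
    have e : k + 1 + n = k + (n + 1) := by omega
    apply T_le n (k+1) _ _ ((Finset.filter_subset _ _).trans hA) (by rw [e]; exact hp)
    rw [e]
    set B := A.filter (fun m => tp m = k + (n+1)) with hB
    have hsub : ((A.filter (fun m => (mkSys S a h2).e k m ≤ v)).filter
        (fun m => tp m = k + (n+1))).image (low (k+1)) ⊆
        ((B.image (low k)) ×ˢ range (v+1)).image (fun x => x.1 * k^x.2) := by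
      intro l hl
      obtain ⟨m, hm, rfl⟩ := Finset.mem_image.mp hl
      have h1 := Finset.mem_filter.mp hm
      have h3 := Finset.mem_filter.mp h1.1
      refine Finset.mem_image.mpr ⟨(low k m, m.factorization k), ?_, (low_succ k m).symm⟩
      refine Finset.mem_product.mpr ⟨Finset.mem_image_of_mem _
        (Finset.mem_filter.mpr ⟨h3.1, h1.2⟩), Finset.mem_range.mpr (Nat.lt_succ_of_le h3.2)⟩
    calc _ ≤ (((B.image (low k)) ×ˢ range (v+1)).image (fun x => x.1 * k^x.2)).card :=
          Finset.card_le_card hsub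
      _ ≤ ((B.image (low k)) ×ˢ range (v+1)).card := Finset.card_image_le
      _ = (B.image (low k)).card * (v+1) := by rw [Finset.card_product, Finset.card_range]
      _ ≤ c * (1 + v) := by
        rw [add_comm 1 v]
        exact Nat.mul_le_mul_right _ hc

end

/-- the starting profile -/
theorem low7 (m : ℕ) (h2 : ¬ 2 ∣ m) :
    low 7 m = 3 ^ m.factorization 3 * 5 ^ m.factorization 5 := by
  have f0 : m.factorization 0 = 0 := Nat.factorization_eq_zero_of_not_prime _ (by norm_num)
  have f1 : m.factorization 1 = 0 := Nat.factorization_eq_zero_of_not_prime _ (by norm_num)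
  have f2 : m.factorization 2 = 0 := Nat.factorization_eq_zero_of_not_dvd h2
  have f4 : m.factorization 4 = 0 := Nat.factorization_eq_zero_of_not_prime _ (by norm_num)
  have f6 : m.factorization 6 = 0 := Nat.factorization_eq_zero_of_not_prime _ (by norm_num)
  simp [low, Finset.prod_range_succ, f0, f1, f2, f4, f6]

theorem f3_le (m : ℕ) (hm : 2 ≤ m) (h9 : ¬ 9 ∣ m) : m.factorization 3 ≤ 1 := by
  by_contra h
  push Not at h
  apply h9
  have := (Nat.Prime.pow_dvd_iff_le_factorization Nat.prime_three (show m ≠ 0 by omega)).mpr h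
  simpa using this

theorem f35 (m : ℕ) (h15 : ¬ 15 ∣ m) :
    m.factorization 3 = 0 ∨ m.factorization 5 = 0 := by
  by_contra h
  push Not at h
  apply h15
  have h3 : 3 ∣ m := Nat.dvd_of_factorization_pos h.1
  have h5 : 5 ∣ m := Nat.dvd_of_factorization_pos h.2
  exact Nat.Coprime.mul_dvd_of_dvd_of_dvd (by norm_num) h3 h5

theorem nu3 : nu 3 = 3/2 := by
  unfold nu del delQ
  norm_num

theorem rg3 : rg 3 1 = 1/2 := by
  rw [rg_succ 3 0 Nat.prime_three, nu3]
  norm_num

section

variable (S : Finset ℕ) (a : ℕ → ℤ) (h2 : ∀ m ∈ S, 2 ≤ m) (hodd : ∀ m ∈ S, ¬ (2 ∣ m))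
  (h9 : ∀ m ∈ S, ¬ (9 ∣ m)) (h15 : ∀ m ∈ S, ¬ (15 ∣ m))

include hodd in
theorem T_start (n : ℕ) : (mkSys S a h2).T (n+3) 0 S = (mkSys S a h2).T n 3 S := by
  rw [T_triv S a h2 (n+2) 0 S (fun m _ => Nat.factorization_eq_zero_of_not_prime _ (by norm_num)),
    T_triv S a h2 (n+1) 1 S (fun m _ => Nat.factorization_eq_zero_of_not_prime _ (by norm_num)),
    T_triv S a h2 n 2 S (fun m hm => Nat.factorization_eq_zero_of_not_dvd (hodd m hm))]

include h9 in
theorem T_three (n : ℕ) : (mkSys S a h2).T (n+1) 3 S =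
    1/2 * (mkSys S a h2).T n 4 (S.filter (fun m => m.factorization 3 ≤ 0))
      + 1/2 * (mkSys S a h2).T n 4 S := by
  rw [Sys.T]
  change ∑ v ∈ range ((1000 + S.sup id) + 1), rhog (1000 + S.sup id) 3 v *
    (fun v => (mkSys S a h2).T n 4 (S.filter (fun m => m.factorization 3 ≤ v))) v = _
  rw [abel]
  have hf : ∀ v, 1 ≤ v → S.filter (fun m => m.factorization 3 ≤ v) = S := by
    intro v hv
    apply Finset.filter_true_of_mem
    intro m hm
    have := f3_le m (h2 m hm) (h9 m hm)
    omega
  have hsum : ∑ i ∈ range (1000 + S.sup id), rg 3 (i+1) *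
      ((fun v => (mkSys S a h2).T n 4 (S.filter (fun m => m.factorization 3 ≤ v))) (i+1) -
      (fun v => (mkSys S a h2).T n 4 (S.filter (fun m => m.factorization 3 ≤ v))) i) =
      rg 3 1 * ((mkSys S a h2).T n 4 S -
        (mkSys S a h2).T n 4 (S.filter (fun m => m.factorization 3 ≤ 0))) := by
    rw [Finset.sum_eq_single 0]
    · simp only [zero_add]
      rw [hf 1 le_rfl]
    · intro i _ hi
      simp only
      rw [hf (i+1) (by omega), hf i (by omega), sub_self, mul_zero]
    · intro h
      exact absurd (Finset.mem_range.mpr (by omega)) h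
  rw [hsum, rg3]
  ring

theorem T_five (n : ℕ) (A : Finset ℕ) : (mkSys S a h2).T (n+3) 4 A =
    ∑ v ∈ range ((1000 + S.sup id) + 1), rhog (1000 + S.sup id) 5 v *
      (mkSys S a h2).T n 7 (A.filter (fun m => m.factorization 5 ≤ v)) := by
  rw [T_triv S a h2 (n+2) 4 A (fun m _ => Nat.factorization_eq_zero_of_not_prime _ (by norm_num)),
    Sys.T]
  apply Finset.sum_congr rfl
  intro v _
  rw [T_triv S a h2 n 6 _ (fun m _ => Nat.factorization_eq_zero_of_not_prime _ (by norm_num))]
  rfl

include hodd in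
theorem card_start0 (j v : ℕ) :
    ((((S.filter (fun m => m.factorization 3 ≤ 0)).filter (fun m => m.factorization 5 ≤ v)).filter
      (fun m => tp m = j)).image (low 7)).card ≤ 1 + v := by
  have hsub : ((((S.filter (fun m => m.factorization 3 ≤ 0)).filter
      (fun m => m.factorization 5 ≤ v)).filter
      (fun m => tp m = j)).image (low 7)) ⊆ (range (v+1)).image (fun i => 5^i) := by
    intro l hl
    obtain ⟨m, hm, rfl⟩ := Finset.mem_image.mp hl
    have h1 := Finset.mem_filter.mp hm
    have h3 := Finset.mem_filter.mp h1.1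
    have h4 := Finset.mem_filter.mp h3.1
    rw [low7 m (hodd m h4.1), Nat.le_zero.mp h4.2, pow_zero, one_mul]
    exact Finset.mem_image_of_mem _ (Finset.mem_range.mpr (Nat.lt_succ_of_le h3.2))
  calc _ ≤ _ := Finset.card_le_card hsub
    _ ≤ _ := Finset.card_image_le
    _ = _ := by rw [Finset.card_range]; omega

include h2 hodd h9 h15 in
theorem card_start1 (j v : ℕ) :
    (((S.filter (fun m => m.factorization 5 ≤ v)).filter
      (fun m => tp m = j)).image (low 7)).card ≤ 2 + v := by
  have hsub : (((S.filter (fun m => m.factorization 5 ≤ v)).filter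
      (fun m => tp m = j)).image (low 7)) ⊆ insert 3 ((range (v+1)).image (fun i => 5^i)) := by
    intro l hl
    obtain ⟨m, hm, rfl⟩ := Finset.mem_image.mp hl
    have h1 := Finset.mem_filter.mp hm
    have h3 := Finset.mem_filter.mp h1.1
    have h4 := f3_le m (h2 m h3.1) (h9 m h3.1)
    rw [low7 m (hodd m h3.1)]
    rcases f35 m (h15 m h3.1) with h | h
    · rw [h, pow_zero, one_mul]
      exact Finset.mem_insert_of_mem
        (Finset.mem_image_of_mem _ (Finset.mem_range.mpr (Nat.lt_succ_of_le h3.2)))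
    · rw [h, pow_zero, mul_one]
      rcases Nat.le_one_iff_eq_zero_or_eq_one.mp h4 with h5 | h5
      · rw [h5]
        apply Finset.mem_insert_of_mem
        exact Finset.mem_image.mpr ⟨0, Finset.mem_range.mpr (by omega), by norm_num⟩
      · rw [h5]
        exact Finset.mem_insert_self _ _
  calc _ ≤ _ := Finset.card_le_card hsub
    _ ≤ _ := Finset.card_insert_le _ _
    _ ≤ (v + 1) + 1 := by
      apply Nat.add_le_add_right
      exact Finset.card_image_le.trans (by rw [Finset.card_range])
    _ = _ := by omega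

include hodd h9 h15 in
theorem T_le_CC (j : ℕ) (hj : 7 ≤ j) (hp : j.Prime) :
    (mkSys S a h2).T j 0 S ≤ CC (1000 + S.sup id) j := by
  obtain ⟨n, rfl⟩ : ∃ n, j = n + 7 := ⟨j - 7, by omega⟩
  have h0 : (mkSys S a h2).T (n+7) 0 S = (mkSys S a h2).T (n+4) 3 S :=
    T_start S a h2 hodd (n+4)
  have h1 : (mkSys S a h2).T (n+4) 3 S =
    1/2 * (mkSys S a h2).T (n+3) 4 (S.filter (fun m => m.factorization 3 ≤ 0))
      + 1/2 * (mkSys S a h2).T (n+3) 4 S := T_three S a h2 h9 (n+3)
  rw [h0, h1, T_five, T_five]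
  have hCC : CC (1000 + S.sup id) (n+7) = EE (1000 + S.sup id) 0 (HH (1000 + S.sup id) n 7) := by
    have := EE_HH (1000 + S.sup id) n 0
    rw [show 7 + 0 = 7 from rfl] at this
    rw [this]
    unfold CC
    rw [show n + 7 - 7 = 0 + n by omega, show 7 + n = n + 7 by omega]
  rw [hCC]
  simp only [EE]
  have e7 : 7 + n = n + 7 := by omega
  have hA : ∑ v ∈ range ((1000 + S.sup id) + 1), rhog (1000 + S.sup id) 5 v *
      (mkSys S a h2).T n 7 ((S.filter (fun m => m.factorization 3 ≤ 0)).filter
        (fun m => m.factorization 5 ≤ v)) ≤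
      ∑ v ∈ range ((1000 + S.sup id) + 1), rhog (1000 + S.sup id) 5 v *
        HH (1000 + S.sup id) n 7 (1 + v) := by
    apply Finset.sum_le_sum
    intro v _
    apply mul_le_mul_of_nonneg_left _ (rhog_nonneg _ 5 v)
    apply T_le S a h2 n 7 _ _ ((Finset.filter_subset _ _).trans (Finset.filter_subset _ _))
      (by rw [e7]; exact hp)
    rw [e7]
    exact card_start0 S hodd (n+7) v
  have hB : ∑ v ∈ range ((1000 + S.sup id) + 1), rhog (1000 + S.sup id) 5 v *
      (mkSys S a h2).T n 7 (S.filter (fun m => m.factorization 5 ≤ v)) ≤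
      ∑ v ∈ range ((1000 + S.sup id) + 1), rhog (1000 + S.sup id) 5 v *
        HH (1000 + S.sup id) n 7 (2 + v) := by
    apply Finset.sum_le_sum
    intro v _
    apply mul_le_mul_of_nonneg_left _ (rhog_nonneg _ 5 v)
    apply T_le S a h2 n 7 _ _ (Finset.filter_subset _ _) (by rw [e7]; exact hp)
    rw [e7]
    exact card_start1 S h2 hodd h9 h15 (n+7) v
  linarith

include hodd h9 h15 in
/-- all other stages cost nothing -/
theorem T_other (j : ℕ) (hj : ¬ (7 ≤ j ∧ j.Prime)) : (mkSys S a h2).T j 0 S = 0 := by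
  apply T_zero
  rw [zero_add]
  by_cases hp : j.Prime
  swap
  · have : S.filter (fun m => tp m = j) = ∅ := by
      apply Finset.filter_eq_empty_iff.mpr
      intro m hm h
      exact hp (h ▸ tp_prime m (h2 m hm))
    rw [this, Finset.sum_empty]
    exact (del_pos j).le
  have hlt : j < 7 := by
    by_contra h
    exact hj ⟨not_lt.mp h, hp⟩
  have hcases : j = 2 ∨ j = 3 ∨ j = 5 := by
    interval_cases j
    · exact absurd hp (by norm_num)
    · exact absurd hp (by norm_num)
    · left; rfl
    · right; left; rfl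
    · exact absurd hp (by norm_num)
    · right; right; rfl
    · exact absurd hp (by norm_num)
  rcases hcases with rfl | rfl | rfl
  · have : S.filter (fun m => tp m = 2) = ∅ := by
      apply Finset.filter_eq_empty_iff.mpr
      intro m hm h
      exact hodd m hm (h ▸ tp_dvd m (h2 m hm))
    rw [this, Finset.sum_empty]
    exact (del_pos 2).le
  · have hsub : S.filter (fun m => tp m = 3) ⊆ {3} := by
      intro m hm
      have h1 := Finset.mem_filter.mp hm
      have h3 := eq_low m 3 (h2 m h1.1) h1.2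
      have hf := f3_le m (h2 m h1.1) (h9 m h1.1)
      have hf' := fac_tp_pos m (h2 m h1.1)
      rw [h1.2] at hf'
      have f0 : m.factorization 0 = 0 := Nat.factorization_eq_zero_of_not_prime _ (by norm_num)
      have f1 : m.factorization 1 = 0 := Nat.factorization_eq_zero_of_not_prime _ (by norm_num)
      have f2 : m.factorization 2 = 0 := Nat.factorization_eq_zero_of_not_dvd (hodd m h1.1)
      have f3 : m.factorization 3 = 1 := by omega
      rw [Finset.mem_singleton, ← h3]
      simp [low, Finset.prod_range_succ, f0, f1, f2, f3]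
    refine (Finset.sum_le_sum_of_subset_of_nonneg hsub (fun i _ _ => by positivity)).trans ?_
    rw [Finset.sum_singleton]
    have ht : tp 3 = 3 := by
      unfold tp
      rw [Nat.Prime.primeFactors Nat.prime_three]
      simp
    rw [ht, Nat.Prime.factorization_self Nat.prime_three]
    unfold del delQ
    norm_num
  · refine (sum_w_le S h2 5 (by norm_num)).trans ?_
    have hsub : ((S.filter (fun m => tp m = 5)).image (low 5)) ⊆ {1} := by
      intro l hl
      obtain ⟨m, hm, rfl⟩ := Finset.mem_image.mp hl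
      have h1 := Finset.mem_filter.mp hm
      have hf' := fac_tp_pos m (h2 m h1.1)
      rw [h1.2] at hf'
      have f0 : m.factorization 0 = 0 := Nat.factorization_eq_zero_of_not_prime _ (by norm_num)
      have f1 : m.factorization 1 = 0 := Nat.factorization_eq_zero_of_not_prime _ (by norm_num)
      have f2 : m.factorization 2 = 0 := Nat.factorization_eq_zero_of_not_dvd (hodd m h1.1)
      have f4 : m.factorization 4 = 0 := Nat.factorization_eq_zero_of_not_prime _ (by norm_num)
      have f3 : m.factorization 3 = 0 := by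
        rcases f35 m (h15 m h1.1) with h | h
        · exact h
        · omega
      rw [Finset.mem_singleton]
      simp [low, Finset.prod_range_succ, f0, f1, f2, f3, f4]
    have hc := Finset.card_le_card hsub
    rw [Finset.card_singleton] at hc
    have hc' : (((S.filter (fun m => tp m = 5)).image (low 5)).card : ℝ) ≤ 1 := by exact_mod_cast hc
    have hd : del 5 = 1/4 := by
      unfold del delQ
      norm_num
    rw [hd]
    push_cast
    linarith

include hodd h9 h15 in
theorem W_lt (K : ℕ) : (mkSys S a h2).W K 0 S < 1 := by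
  unfold Sys.W
  rw [← Finset.sum_filter_add_sum_filter_not (range K) (fun j => 7 ≤ j ∧ j.Prime)]
  have h0 : ∑ j ∈ (range K).filter (fun j => ¬ (7 ≤ j ∧ j.Prime)), (mkSys S a h2).T j 0 S = 0 := by
    apply Finset.sum_eq_zero
    intro j hj
    exact T_other S a h2 hodd h9 h15 j (Finset.mem_filter.mp hj).2
  have h1 : ∑ j ∈ (range K).filter (fun j => 7 ≤ j ∧ j.Prime), (mkSys S a h2).T j 0 S ≤
      ∑ j ∈ (range K).filter (fun j => 7 ≤ j ∧ j.Prime), CC (1000 + S.sup id) j := by
    apply Finset.sum_le_sum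
    intro j hj
    have := (Finset.mem_filter.mp hj).2
    exact T_le_CC S a h2 hodd h9 h15 j this.1 this.2
  have h3 := cost_lt (1000 + S.sup id) (by omega) K
  have h3' : ∑ j ∈ (range K).filter (fun j => 7 ≤ j ∧ j.Prime), CC (1000 + S.sup id) j < 1 := by
    convert h3
  rw [h0, add_zero]
  exact lt_of_le_of_lt h1 h3'

end

theorem main_result (S : Finset ℕ) (r : ℕ → ℤ) (h2 : ∀ m ∈ S, 2 ≤ m) (hodd : ∀ m ∈ S, ¬ (2 ∣ m))
    (h9 : ∀ m ∈ S, ¬ (9 ∣ m)) (hcov : ∀ x : ℤ, ∃ m ∈ S, x ≡ r m [ZMOD (m : ℤ)]) :
    ∃ m ∈ S, 15 ∣ m := by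
  by_contra hcon
  push Not at hcon
  exact not_cover S r h2 hcov (S.sup id + 1)
    (fun m hm => Nat.lt_succ_of_le (Finset.le_sup (f := id) hm))
    (W_lt S r h2 hodd h9 hcon _)

end Pool.Agent.H28.Cov
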