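import Pool.Agent.H28.Cov.Potential
import Pool.Agent.H28.Cov.Expect

/-!
Number theoretic part: the system attached to a family of residue classes.
-/

namespace Pool.Agent.H28.Cov

open Finset Classical

/-- the largest prime factor -/
def tp (m : ℕ) : ℕ := m.primeFactors.sup id

theorem tp_mem (m : ℕ) (hm : 2 ≤ m) : tp m ∈ m.primeFactors := by
  obtain ⟨i, hi, h⟩ := Finset.exists_mem_eq_sup m.primeFactors
    (Nat.nonempty_primeFactors.mpr (by omega)) id
  unfold tp
  rw [h]
  exact hi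

theorem tp_prime (m : ℕ) (hm : 2 ≤ m) : (tp m).Prime := Nat.prime_of_mem_primeFactors (tp_mem m hm)

theorem tp_dvd (m : ℕ) (hm : 2 ≤ m) : tp m ∣ m := Nat.dvd_of_mem_primeFactors (tp_mem m hm)

theorem le_tp (m p : ℕ) (hp : p ∈ m.primeFactors) : p ≤ tp m :=
  Finset.le_sup (f := id) hp

theorem fac_tp_pos (m : ℕ) (hm : 2 ≤ m) : 1 ≤ m.factorization (tp m) :=
  (Nat.Prime.dvd_iff_one_le_factorization (tp_prime m hm) (by omega)).mp (tp_dvd m hm)

theorem count_class (p e g : ℕ) (hp : 0 < p) (he : e ≤ g) (a : ℤ)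
    [DecidablePred (fun y : ℕ => ((p:ℤ)^e ∣ (y:ℤ) - a))] :
    ((range (p^g)).filter (fun y : ℕ => ((p:ℤ)^e ∣ (y:ℤ) - a))).card = p^(g-e) := by
  have hpe : 0 < p^e := Nat.pow_pos hp
  set a' : ℕ := (a % ((p^e : ℕ):ℤ)).toNat with ha'
  have ha'' : ((a' : ℕ) : ℤ) = a % ((p^e : ℕ):ℤ) :=
    Int.toNat_of_nonneg (Int.emod_nonneg _ (by exact_mod_cast hpe.ne'))
  have h1 : (range (p^g)).filter (fun y : ℕ => ((p:ℤ)^e ∣ (y:ℤ) - a)) =
      (range (p^g)).filter (fun y : ℕ => y ≡ a' [MOD p^e]) := by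
    apply Finset.filter_congr
    intro y _
    rw [Nat.modEq_iff_dvd, ha'']
    have h2 : a % ((p^e : ℕ):ℤ) - (y:ℤ) = -((y:ℤ) - a) - ((p^e : ℕ):ℤ) * (a / ((p^e : ℕ):ℤ)) := by
      have := Int.emod_add_mul_ediv a ((p^e : ℕ):ℤ)
      linarith
    rw [h2]
    push_cast
    constructor
    · intro h
      exact dvd_sub ((dvd_neg).mpr h) (dvd_mul_right _ _)
    · intro h
      have := dvd_add h (dvd_mul_right ((p:ℤ)^e) (a / (p:ℤ)^e))
      rw [sub_add_cancel] at this
      exact (dvd_neg).mp this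
  rw [h1, ← Nat.count_eq_card_filter_range, Nat.count_modEq_card _ hpe]
  have h3 : p^g = p^e * p^(g-e) := by rw [← pow_add]; congr 1; omega
  rw [h3, Nat.mul_div_cancel_left _ hpe, Nat.mul_mod_right]
  simp

noncomputable def mkSys (S : Finset ℕ) (a : ℕ → ℤ) (h2 : ∀ m ∈ S, 2 ≤ m) : Sys where
  γ := 1000 + S.sup id
  e := fun k m => m.factorization k
  w := fun m => 1 / (tp m : ℝ)^(m.factorization (tp m))
  top := tp
  δ := del
  r := rg
  Y := fun k => range (if k.Prime then k^(1000 + S.sup id) else 1)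
  C := fun k m y => ((k:ℤ)^(m.factorization k)) ∣ ((y:ℤ) - a m)
  S := S
  hδ0 := fun k => (del_pos k).le
  hδ1 := fun k => by linarith [del_le k]
  hw := fun m => by positivity
  he := fun k m hm => by
    have h1 := h2 m hm
    have h2' := (Nat.factorization_lt k (show m ≠ 0 by omega)).le
    have h3 : m ≤ S.sup id := Finset.le_sup (f := id) hm
    omega
  hr0 := rg_zero
  hrm := rg_anti
  hrn := rg_nonneg
  hY := fun k => by
    rw [Finset.nonempty_range_iff]
    split_ifs with h
    · exact pow_ne_zero _ h.ne_zero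
    · norm_num
  hC := fun k m hm he => by
    have hk : k.Prime := by
      by_contra hk
      rw [Nat.factorization_eq_zero_of_not_prime _ hk] at he
      omega
    have h1 := h2 m hm
    have h2' := (Nat.factorization_lt k (show m ≠ 0 by omega)).le
    have h3 : m ≤ S.sup id := Finset.le_sup (f := id) hm
    simp only [if_pos hk]
    rw [count_class k (m.factorization k) _ hk.pos (by omega), Finset.card_range]
    obtain ⟨i, hi⟩ : ∃ i, m.factorization k = i + 1 := ⟨m.factorization k - 1, by omega⟩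
    rw [hi, rg_succ _ _ hk, nu]
    have hd : 1 - del k ≠ 0 := by linarith [del_le k]
    have hk0 : (k:ℝ) ≠ 0 := by exact_mod_cast hk.ne_zero
    apply le_of_eq
    have hs : 1000 + S.sup id = (1000 + S.sup id - (i+1)) + (i+1) := by omega
    conv_rhs => rw [hs]
    push_cast
    rw [pow_add]
    field_simp
    ring
  htop := fun m hm => by
    have h1 := h2 m hm
    have hk := tp_prime m h1
    have h2' := (Nat.factorization_lt (tp m) (show m ≠ 0 by omega)).le
    have h3 : m ≤ S.sup id := Finset.le_sup (f := id) hm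
    simp only [if_pos hk]
    rw [count_class (tp m) (m.factorization (tp m)) _ hk.pos (by omega), Finset.card_range]
    have hk0 : (tp m:ℝ) ≠ 0 := by exact_mod_cast hk.ne_zero
    apply le_of_eq
    have hs : 1000 + S.sup id = (1000 + S.sup id - m.factorization (tp m)) +
      m.factorization (tp m) := by omega
    conv_rhs => rw [hs]
    push_cast
    rw [pow_add]
    field_simp

theorem crt (y : ℕ → ℕ) (K g : ℕ) :
    ∃ x : ℕ, ∀ k < K, k.Prime → x ≡ y k [MOD k^g] := by
  obtain ⟨x, hx⟩ := Nat.chineseRemainderOfFinset y (fun k => k^g)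
    ((range K).filter Nat.Prime) (by
      intro i hi
      exact pow_ne_zero _ (Finset.mem_filter.mp hi).2.ne_zero) (by
      intro i hi j hj hij
      have hi' := (Finset.mem_filter.mp hi).2
      have hj' := (Finset.mem_filter.mp hj).2
      exact Nat.Coprime.pow _ _ ((Nat.coprime_primes hi' hj').mpr hij))
  exact ⟨x, fun k hk hp => hx k (Finset.mem_filter.mpr ⟨Finset.mem_range.mpr hk, hp⟩)⟩

/-- If the potential is small the family is not a covering. -/
theorem not_cover (S : Finset ℕ) (a : ℕ → ℤ) (h2 : ∀ m ∈ S, 2 ≤ m)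
    (hcov : ∀ x : ℤ, ∃ m ∈ S, x ≡ a m [ZMOD (m : ℤ)]) (K : ℕ) (hK : ∀ m ∈ S, m < K)
    (hW : (mkSys S a h2).W K 0 S < 1) : False := by
  obtain ⟨y, _, hy⟩ := (mkSys S a h2).exists_point K hW (fun m hm =>
    lt_of_le_of_lt (Nat.le_of_dvd (by have := h2 m hm; omega) (tp_dvd m (h2 m hm))) (hK m hm))
  obtain ⟨x, hx⟩ := crt y K (1000 + S.sup id)
  obtain ⟨m, hm, hxm⟩ := hcov x
  obtain ⟨k, hk, hnot⟩ := hy m hm
  apply hnot
  change ((k:ℤ)^(m.factorization k)) ∣ ((y k:ℤ) - a m)
  by_cases hp : k.Prime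
  · have h1 := h2 m hm
    have h2' := (Nat.factorization_lt k (show m ≠ 0 by omega)).le
    have h3 : m ≤ S.sup id := Finset.le_sup (f := id) hm
    have hx' := hx k hk hp
    have h4 : ((k:ℤ)^(m.factorization k)) ∣ (m:ℤ) := by
      exact_mod_cast Nat.ordProj_dvd m k
    have h5 : ((k:ℤ)^(m.factorization k)) ∣ ((k^(1000 + S.sup id) : ℕ) : ℤ) := by
      push_cast
      exact pow_dvd_pow _ (by omega)
    have h6 := h5.trans ((Nat.modEq_iff_dvd).mp hx')
    have h7 := h4.trans ((Int.modEq_iff_dvd).mp hxm)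
    have := dvd_sub h6 h7
    have e : (y k : ℤ) - a m = ((y k:ℤ) - x) - (a m - x) := by ring
    rw [e]
    exact this
  · rw [Nat.factorization_eq_zero_of_not_prime _ hp, pow_zero]
    exact one_dvd _

end Pool.Agent.H28.Cov
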