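import Mathlib

/-!
Parameters for the distortion argument (frozen statement S4823).
-/

namespace Pool.Agent.H28.Cov

noncomputable section

/-- distortion parameters, as rationals -/
def delQ (p : ℕ) : ℚ :=
  if p = 3 then 1/3 else if p = 5 then 1/4 else if p = 7 then 33/100
  else if p = 11 then 1/5 else if p = 19 then 22/100
  else if p = 23 then 27/100 else if p = 31 then 27/100
  else if 3000 ≤ p then 1/5 else 1/4

def del (p : ℕ) : ℝ := (delQ p : ℝ)

def nu (p : ℕ) : ℝ := 1 / (1 - del p)

/-- ideal level distribution: P(v = k) at the prime p -/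
def rho (p k : ℕ) : ℝ :=
  if k = 0 then 1 - nu p / p else nu p * (1 / (p:ℝ)^k - 1 / (p:ℝ)^(k+1))

/-- distribution of 1 + X + Y, X fair coin, P(Y ≥ i) = (4/3) 5^{-i} -/
def p7 (n : ℕ) : ℝ :=
  if n = 0 then 0
  else if n = 1 then 11/30
  else if n = 2 then (1/2) * (16/15) * (1/5) + (1/2) * (11/15)
  else (1/2) * (16/15) * (1/5)^(n-1) + (1/2) * (16/15) * (1/5)^(n-2)

end

end Pool.Agent.H28.Cov
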