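import Pool.Agent.H28.Cov.NumTail

namespace Pool.Agent.H28.Cov

open Finset

/-- scale -/
def SC : ℕ := 1000000000000000

/-- kernel-friendly loop: fuel, index, `g`, `t`, bounds -/
def run (Q a b c d : ℕ) (gm tm : ℕ) : ℕ → ℕ → ℕ → ℕ → Bool :=
  fun n => Nat.rec (fun _ g t => Nat.ble g gm && Nat.ble t tm)
    (fun _ ih i g t =>
      bif Nat.beq (Nat.gcd i Q) 1 then
        ih (i+1) (g + g*(a*(3*i-1))/(b*((i-1)*(i-1))) + 1) (t + g*c/(d*((i-1)*(i-1)))+1)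
      else ih (i+1) g t) n

theorem run_zero (Q a b c d gm tm i g t : ℕ) :
    run Q a b c d gm tm 0 i g t = (Nat.ble g gm && Nat.ble t tm) := rfl

theorem run_succ (Q a b c d gm tm n i g t : ℕ) :
    run Q a b c d gm tm (n+1) i g t =
      bif Nat.beq (Nat.gcd i Q) 1 then
        run Q a b c d gm tm n (i+1) (g + g*(a*(3*i-1))/(b*((i-1)*(i-1))) + 1)
          (t + g*c/(d*((i-1)*(i-1)))+1)
      else run Q a b c d gm tm n (i+1) g t := rfl

theorem cast_div_le' (m n : ℕ) (hn : 0 < n) : (m:ℝ)/n ≤ ((m/n + 1 : ℕ):ℝ) := by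
  rw [div_le_iff₀ (by exact_mod_cast hn)]
  have := Nat.lt_div_mul_add (a := m) hn
  have h : m ≤ (m/n+1)*n := by
    have e : (m/n+1)*n = m/n*n+n := by ring
    omega
  exact_mod_cast h

/-- the invariant for the large-prime stage -/
structure Inv (G cost : ℕ → ℝ) (i g t : ℕ) : Prop where
  hg : G i ≤ (g:ℝ)/SC
  ht : ∀ K ≤ i, TT cost K ≤ (t:ℝ)/SC

theorem Inv.mono {G cost : ℕ → ℝ} {i g t g' t' : ℕ} (h : Inv G cost i g t) (hg : g ≤ g') (ht : t ≤ t') :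
    Inv G cost i g' t' := by
  refine ⟨h.hg.trans ?_, fun K hK => (h.ht K hK).trans ?_⟩
  · apply div_le_div_of_nonneg_right _ (by norm_num [SC]); exact_mod_cast hg
  · apply div_le_div_of_nonneg_right _ (by norm_num [SC]); exact_mod_cast ht

theorem Inv.step_not {G cost : ℕ → ℝ} {i g t : ℕ} (h : Inv G cost i g t) (hp : ¬ i.Prime)
    (hG : G (i+1) ≤ G i) : Inv G cost (i+1) g t := by
  refine ⟨hG.trans h.hg, ?_⟩
  intro K hK
  rcases Nat.lt_or_ge K (i+1) with h1 | h1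
  · exact h.ht K (by omega)
  · have : K = i+1 := by omega
    subst this
    rw [TT_succ_not cost hp]
    exact h.ht i le_rfl

theorem SC_pos : (0:ℝ) < SC := by norm_num [SC]

theorem step_arith (A : ℝ) (g N D : ℕ) (hD : 0 < D) (hA : A ≤ (g:ℝ)/SC) :
    A * ((N:ℝ)/D) ≤ ((g*N/D+1 : ℕ):ℝ)/SC := by
  have h1 : A * ((N:ℝ)/D) ≤ (g:ℝ)/SC * ((N:ℝ)/D) :=
    mul_le_mul_of_nonneg_right hA (by positivity)
  refine h1.trans ?_
  have h2 := cast_div_le' (g*N) D hD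
  calc (g:ℝ)/SC * ((N:ℝ)/D) = (((g*N:ℕ):ℝ)/D)/SC := by push_cast; ring
    _ ≤ _ := div_le_div_of_nonneg_right h2 SC_pos.le

theorem Inv.step_prime {G cost : ℕ → ℝ} {i g t : ℕ} (h : Inv G cost i g t) (h7 : 7 ≤ i)
    (hp : i.Prime) (a b c d : ℕ) (hb : 0 < b) (hd : 0 < d)
    (hG : G (i+1) ≤ G i * (1 + (a:ℝ)/b * (3 * (i:ℝ) - 1) / ((i:ℝ) - 1)^2))
    (hc : cost i ≤ G i * ((c:ℝ)/d / ((i:ℝ) - 1)^2)) :
    Inv G cost (i+1) (g + g*(a*(3*i-1))/(b*((i-1)*(i-1))) + 1) (t + g*c/(d*((i-1)*(i-1)))+1) := by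
  have hi1 : (((i-1 : ℕ)):ℝ) = (i:ℝ) - 1 := by
    rw [Nat.cast_sub (by omega)]; norm_num
  have hi3 : (((3*i-1 : ℕ)):ℝ) = 3*(i:ℝ) - 1 := by
    rw [Nat.cast_sub (by omega)]; push_cast; ring
  have hpos : 0 < (i-1)*(i-1) := Nat.mul_pos (by omega) (by omega)
  have e1 : (a:ℝ)/b * (3 * (i:ℝ) - 1) / ((i:ℝ) - 1)^2
      = ((a*(3*i-1) : ℕ):ℝ)/((b*((i-1)*(i-1)) : ℕ):ℝ) := by
    rw [Nat.cast_mul, Nat.cast_mul, Nat.cast_mul, hi1, hi3, ← pow_two]
    have hb' : (b:ℝ) ≠ 0 := by exact_mod_cast hb.ne'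
    have : ((i:ℝ) - 1) ≠ 0 := by rw [← hi1]; exact_mod_cast (by omega : i - 1 ≠ 0)
    field_simp
  have e2 : (c:ℝ)/d / ((i:ℝ) - 1)^2 = ((c : ℕ):ℝ)/((d*((i-1)*(i-1)) : ℕ):ℝ) := by
    rw [Nat.cast_mul, Nat.cast_mul, hi1, ← pow_two]
    have hd' : (d:ℝ) ≠ 0 := by exact_mod_cast hd.ne'
    have : ((i:ℝ) - 1) ≠ 0 := by rw [← hi1]; exact_mod_cast (by omega : i - 1 ≠ 0)
    field_simp
  rw [e1] at hG
  rw [e2] at hc
  have a1 := step_arith (G i) g (a*(3*i-1)) (b*((i-1)*(i-1))) (Nat.mul_pos hb hpos) h.hg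
  have a2 := step_arith (G i) g c (d*((i-1)*(i-1))) (Nat.mul_pos hd hpos) h.hg
  refine ⟨?_, ?_⟩
  · have h1 := h.hg
    calc G (i+1) ≤ G i + G i * (((a*(3*i-1) : ℕ):ℝ)/((b*((i-1)*(i-1)) : ℕ):ℝ)) := by linarith
      _ ≤ (g:ℝ)/SC + ((g*(a*(3*i-1))/(b*((i-1)*(i-1)))+1 : ℕ):ℝ)/SC := add_le_add h1 a1
      _ = _ := by rw [← add_div]; congr 1; push_cast; ring
  · intro K hK
    rcases Nat.lt_or_ge K (i+1) with h1 | h1
    · refine (h.ht K (by omega)).trans ?_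
      apply div_le_div_of_nonneg_right _ SC_pos.le
      have : t ≤ t + g*c/(d*((i-1)*(i-1)))+1 := Nat.le_succ_of_le (Nat.le_add_right _ _)
      exact_mod_cast this
    · have : K = i+1 := by omega
      subst this
      rw [TT_succ_prime cost h7 hp]
      calc TT cost i + cost i ≤ (t:ℝ)/SC + ((g*c/(d*((i-1)*(i-1)))+1 : ℕ):ℝ)/SC :=
            add_le_add (h.ht i le_rfl) (hc.trans a2)
        _ = _ := by rw [← add_div]; congr 1; push_cast; ring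

theorem run_sound (G cost : ℕ → ℝ) (Q a b c d gm tm : ℕ) (hb : 0 < b) (hd : 0 < d) (n : ℕ) :
    ∀ i g t, 7 ≤ i → (∀ j, i ≤ j → j < i + n → j.Prime → Nat.gcd j Q = 1) →
    (∀ j, i ≤ j → j < i + n → j.Prime → G (j+1) ≤ G j * (1 + (a:ℝ)/b * (3 * (j:ℝ) - 1) / ((j:ℝ) - 1)^2)) →
    (∀ j, i ≤ j → j < i + n → ¬ j.Prime → G (j+1) ≤ G j) →
    (∀ j, i ≤ j → j < i + n → j.Prime → cost j ≤ G j * ((c:ℝ)/d / ((j:ℝ) - 1)^2)) →
    run Q a b c d gm tm n i g t = true → Inv G cost i g t → Inv G cost (i+n) gm tm := by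
  induction n with
  | zero =>
    intro i g t _ _ _ _ _ hr hI
    rw [run_zero, Bool.and_eq_true, Nat.ble_eq, Nat.ble_eq] at hr
    exact hI.mono hr.1 hr.2
  | succ n ih =>
    intro i g t h7 hQ hG hGn hc hr hI
    rw [run_succ] at hr
    have e : i + (n+1) = (i+1) + n := by ring
    rw [e]
    have hQ' : ∀ j, i + 1 ≤ j → j < i + 1 + n → j.Prime → Nat.gcd j Q = 1 :=
      fun j h1 h2 => hQ j (by omega) (by omega)
    have hG' : ∀ j, i + 1 ≤ j → j < i + 1 + n → j.Prime →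
        G (j+1) ≤ G j * (1 + (a:ℝ)/b * (3 * (j:ℝ) - 1) / ((j:ℝ) - 1)^2) :=
      fun j h1 h2 => hG j (by omega) (by omega)
    have hGn' : ∀ j, i + 1 ≤ j → j < i + 1 + n → ¬ j.Prime → G (j+1) ≤ G j :=
      fun j h1 h2 => hGn j (by omega) (by omega)
    have hc' : ∀ j, i + 1 ≤ j → j < i + 1 + n → j.Prime →
        cost j ≤ G j * ((c:ℝ)/d / ((j:ℝ) - 1)^2) :=
      fun j h1 h2 => hc j (by omega) (by omega)
    cases hbq : Nat.beq (Nat.gcd i Q) 1 with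
    | true =>
      rw [hbq, cond_true] at hr
      apply ih (i+1) _ _ (by omega) hQ' hG' hGn' hc' hr
      by_cases hp : i.Prime
      · exact hI.step_prime h7 hp a b c d hb hd (hG i le_rfl (by omega) hp) (hc i le_rfl (by omega) hp)
      · exact (hI.step_not hp (hGn i le_rfl (by omega) hp)).mono
          (Nat.le_succ_of_le (Nat.le_add_right _ _)) (Nat.le_succ_of_le (Nat.le_add_right _ _))
    | false =>
      rw [hbq, cond_false] at hr
      apply ih (i+1) _ _ (by omega) hQ' hG' hGn' hc' hr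
      have hp : ¬ i.Prime := by
        intro hp
        have := hQ i le_rfl (by omega) hp
        rw [this] at hbq
        exact absurd hbq (by decide)
      exact hI.step_not hp (hGn i le_rfl (by omega) hp)

end Pool.Agent.H28.Cov
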