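import Pool.Agent.H28.Cov.NumRun

namespace Pool.Agent.H28.Cov

open Finset

/-- list lookup -/
def nth : List ℕ → ℕ → ℕ
  | [], _ => 0
  | a :: _, 0 => a
  | _ :: l, n+1 => nth l n

/-- `∑_{k<n} f k` -/
def sm (f : ℕ → ℕ) (n : ℕ) : ℕ := Nat.rec 0 (fun k ih => ih + f k) n

theorem sm_eq (f : ℕ → ℕ) (n : ℕ) : sm f n = ∑ k ∈ range n, f k := by
  induction n with
  | zero => rfl
  | succ n ih => rw [sum_range_succ, ← ih]; rfl

/-- bounded conjunction over `1 ≤ n ≤ N` -/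
def allB (f : ℕ → Bool) (n : ℕ) : Bool := Nat.rec true (fun k ih => f (k+1) && ih) n

theorem allB_spec (f : ℕ → Bool) (n : ℕ) (h : allB f n = true) : ∀ k, 1 ≤ k → k ≤ n → f k = true := by
  induction n with
  | zero => intro k h1 h2; omega
  | succ n ih =>
    have h' : (f (n+1) && allB f n) = true := h
    rw [Bool.and_eq_true] at h'
    intro k h1 h2
    rcases Nat.lt_or_ge n k with h3 | h3
    · have : k = n+1 := by omega
      rw [this]; exact h'.1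
    · exact ih h'.2 k h1 h3

structure St where
  f : ℕ
  g : ℕ
  t : ℕ
  L : List ℕ

/-- the invariant for the small-prime stage -/
structure Ok (F G : ℕ → ℝ) (P : ℕ → ℕ → ℝ) (cost : ℕ → ℝ) (i : ℕ) (s : St) : Prop where
  hf : F i ≤ (s.f:ℝ)/SC
  hi : Inv G cost i s.g s.t
  hP : ∀ n, 1 ≤ n → n ≤ 49 → P i n ≤ (nth s.L n : ℝ)/SC

def term (p dn dd : ℕ) (L : List ℕ) (n d : ℕ) : ℕ :=
  bif Nat.beq d 1 then nth L n * ((dd-dn)*p - dd)/((dd-dn)*p) + 1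
  else nth L (n/d) * (dd*(p-1))/((dd-dn)*p^d) + 1

def newP (p dn dd : ℕ) (L : List ℕ) (n : ℕ) : ℕ :=
  sm (fun d => bif Nat.beq (n % (d+1)) 0 then term p dn dd L n (d+1) else 0) n

def Wf (p dn dd : ℕ) (L : List ℕ) : ℕ :=
  sm (fun k => (dn*(p-1) - dd*(k+1)) * nth L (k+1)) 100

def chk (p dn dd : ℕ) (s s' : St) : Bool :=
  Nat.ble (s.f + s.f*dd/((dd-dn)*(p-1)) + 1) s'.f &&
  (Nat.ble (s.g + s.g*(dd*(3*p-1))/((dd-dn)*((p-1)*(p-1))) + 1) s'.g &&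
  (Nat.ble (s.t + ((dd*s.f + Wf p dn dd s.L - dn*(p-1)*SC)/((p-1)*(dd-dn)) + 1)) s'.t &&
  (Nat.ble (dn*(p-1)) (50*dd) &&
  allB (fun n => Nat.ble (newP p dn dd s.L n) (nth s'.L n)) 49)))

theorem sum_divisors_le (P : ℕ → ℝ) (hP0 : ∀ n, 0 ≤ P n) (L : List ℕ) (p dn dd : ℕ) (hp : 2 ≤ p) (hlt : dn < dd)
    (hnu : nu p = (dd:ℝ)/((dd-dn : ℕ):ℝ))
    (hP : ∀ n, 1 ≤ n → n ≤ 49 → P n ≤ (nth L n : ℝ)/SC) (n : ℕ) (h1 : 1 ≤ n) (h2 : n ≤ 49) :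
    ∑ d ∈ n.divisors, P (n / d) * rho p (d - 1) ≤ (newP p dn dd L n : ℝ)/SC := by
  have hpR : (2:ℝ) ≤ p := by exact_mod_cast hp
  have hbpos : 0 < dd - dn := by omega
  have hbR : (0:ℝ) < ((dd - dn : ℕ):ℝ) := by exact_mod_cast hbpos
  have key : ∀ d, 1 ≤ d → d ∣ n → P (n/d) * rho p (d-1) ≤ (term p dn dd L n d : ℝ)/SC := by
    intro d hd hdn
    unfold term
    by_cases hd1 : d = 1
    · subst hd1
      simp only [Nat.div_one, Nat.sub_self]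
      have e : Nat.beq 1 1 = true := rfl
      rw [e, cond_true]
      refine le_trans ?_ (step_arith (P n) (nth L n) ((dd-dn)*p - dd) ((dd-dn)*p)
        (Nat.mul_pos hbpos (by omega)) (hP n h1 h2))
      apply mul_le_mul_of_nonneg_left _ (hP0 _)
      have e2 : rho p 0 = 1 - nu p / p := by unfold rho; simp
      rw [e2, hnu]
      have hden : (0:ℝ) < (((dd-dn)*p : ℕ):ℝ) := by
        exact_mod_cast Nat.mul_pos hbpos (by omega)
      rw [le_div_iff₀ hden]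
      have h3 : (((dd-dn)*p : ℕ):ℝ) - dd ≤ (((dd-dn)*p - dd : ℕ):ℝ) := by
        have : (dd-dn)*p ≤ ((dd-dn)*p - dd) + dd := by omega
        have : (((dd-dn)*p : ℕ):ℝ) ≤ (((dd-dn)*p - dd : ℕ):ℝ) + dd := by exact_mod_cast this
        linarith
      refine le_trans (le_of_eq ?_) h3
      rw [Nat.cast_mul]
      have : (p:ℝ) ≠ 0 := by linarith
      field_simp
    · have e : Nat.beq d 1 = false := by
        cases hh : Nat.beq d 1 with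
        | false => rfl
        | true => exact absurd (Nat.eq_of_beq_eq_true hh) hd1
      rw [e, cond_false]
      have hn1 : 1 ≤ n/d := Nat.div_pos (Nat.le_of_dvd (by omega) hdn) (by omega)
      have hn2 : n/d ≤ 49 := (Nat.div_le_self n d).trans h2
      refine le_trans (le_of_eq ?_) (step_arith (P (n/d)) (nth L (n/d)) (dd*(p-1)) ((dd-dn)*p^d)
        (Nat.mul_pos hbpos (pow_pos (by omega) _)) (hP (n/d) hn1 hn2))
      congr 1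
      unfold rho
      rw [if_neg (by omega), hnu]
      obtain ⟨e', rfl⟩ : ∃ e', d = e' + 2 := ⟨d - 2, by omega⟩
      have e3 : e' + 2 - 1 = e' + 1 := by omega
      rw [e3, Nat.cast_mul, Nat.cast_mul, Nat.cast_pow, Nat.cast_sub (by omega : 1 ≤ p)]
      have : (p:ℝ) ≠ 0 := by linarith
      push_cast
      field_simp
      ring
  unfold newP
  rw [sm_eq, Nat.divisors, sum_filter, Finset.sum_Ico_eq_sum_range]
  have e : n + 1 - 1 = n := by omega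
  rw [e, Nat.cast_sum, Finset.sum_div]
  apply Finset.sum_le_sum
  intro d hd
  rw [mem_range] at hd
  by_cases hdn : (1 + d) ∣ n
  · rw [if_pos hdn]
    have e4 : Nat.beq (n % (d+1)) 0 = true := by
      have : n % (d+1) = 0 := Nat.mod_eq_zero_of_dvd (by rwa [add_comm])
      rw [this]; rfl
    rw [e4, cond_true]
    have := key (1+d) (by omega) hdn
    rw [add_comm 1 d] at this ⊢
    exact this
  · rw [if_neg hdn]
    positivity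

theorem cost_le (F0 : ℝ) (P : ℕ → ℝ) (L : List ℕ) (f p dn dd : ℕ) (hp : 2 ≤ p) (hlt : dn < dd)
    (hP0 : ∀ n, 0 ≤ P n)
    (hdel : del p = (dn:ℝ)/(dd:ℝ)) (hnu : nu p = (dd:ℝ)/((dd-dn : ℕ):ℝ))
    (hF : F0 ≤ (f:ℝ)/SC)
    (hP : ∀ n, 1 ≤ n → n ≤ 49 → P n ≤ (nth L n : ℝ)/SC) (h50 : dn*(p-1) ≤ 50*dd) :
    nu p / ((p:ℝ) - 1) * (F0 - del p * ((p:ℝ) - 1)
        + ∑ n ∈ Finset.Icc (1:ℕ) 100, max (del p * ((p:ℝ) - 1) - (n:ℝ)) 0 * P n)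
    ≤ (((dd*f + Wf p dn dd L - dn*(p-1)*SC)/((p-1)*(dd-dn)) + 1 : ℕ) : ℝ)/SC := by
  have hp1 : (((p-1 : ℕ)):ℝ) = (p:ℝ) - 1 := by
    rw [Nat.cast_sub (by omega)]; norm_num
  have hpR : (0:ℝ) < (p:ℝ) - 1 := by
    rw [← hp1]; exact_mod_cast (by omega : 0 < p - 1)
  have hddR : (0:ℝ) < dd := by exact_mod_cast (by omega : 0 < dd)
  have hbpos : 0 < dd - dn := by omega
  have hbR : (0:ℝ) < ((dd - dn : ℕ):ℝ) := by exact_mod_cast hbpos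
  have hS := SC_pos
  have hmax : ∀ n : ℕ, max (del p * ((p:ℝ) - 1) - (n:ℝ)) 0 ≤ ((dn*(p-1) - dd*n : ℕ):ℝ)/dd := by
    intro n
    apply max_le
    · rw [hdel, le_div_iff₀ hddR]
      have h3 : dn*(p-1) ≤ (dn*(p-1) - dd*n) + dd*n := by omega
      have h4 : ((dn*(p-1) : ℕ):ℝ) ≤ ((dn*(p-1) - dd*n : ℕ):ℝ) + ((dd*n : ℕ):ℝ) := by exact_mod_cast h3
      rw [Nat.cast_mul, hp1, Nat.cast_mul] at h4
      have e : ((dn:ℝ)/dd * ((p:ℝ)-1) - n) * dd = dn * ((p:ℝ)-1) - dd * n := by field_simp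
      rw [e]; linarith
    · positivity
  have hsum : ∑ n ∈ Finset.Icc (1:ℕ) 100, max (del p * ((p:ℝ) - 1) - (n:ℝ)) 0 * P n
      ≤ (Wf p dn dd L : ℝ)/(dd*SC) := by
    unfold Wf
    rw [sm_eq, Nat.cast_sum, Finset.sum_div]
    have e1 : Finset.Icc (1:ℕ) 100 = Finset.Ico 1 101 := rfl
    rw [e1, Finset.sum_Ico_eq_sum_range]
    apply Finset.sum_le_sum
    intro k hk
    rw [add_comm 1 k]
    by_cases hk49 : k + 1 ≤ 49
    · calc max (del p * ((p:ℝ) - 1) - ((k+1 : ℕ):ℝ)) 0 * P (k+1)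
          ≤ ((dn*(p-1) - dd*(k+1) : ℕ):ℝ)/dd * ((nth L (k+1) : ℝ)/SC) := by
            apply mul_le_mul (hmax _) (hP _ (by omega) hk49) (hP0 _) (by positivity)
        _ = _ := by rw [Nat.cast_mul]; field_simp
    · have h3 : dn*(p-1) - dd*(k+1) = 0 := by
        have : 50 * dd ≤ dd * (k+1) := by
          rw [mul_comm 50 dd]; exact Nat.mul_le_mul_left dd (by omega)
        omega
      have h4 := hmax (k+1)
      rw [h3] at h4
      simp only [Nat.cast_zero, zero_div] at h4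
      have h5 : max (del p * ((p:ℝ) - 1) - ((k+1 : ℕ):ℝ)) 0 = 0 := le_antisymm h4 (le_max_right _ _)
      rw [h5, zero_mul]
      positivity
  have hnn : 0 ≤ nu p / ((p:ℝ) - 1) := by rw [hnu]; positivity
  have h1 : nu p / ((p:ℝ) - 1) * (F0 - del p * ((p:ℝ) - 1)
        + ∑ n ∈ Finset.Icc (1:ℕ) 100, max (del p * ((p:ℝ) - 1) - (n:ℝ)) 0 * P n)
      ≤ nu p / ((p:ℝ) - 1) * ((f:ℝ)/SC - del p * ((p:ℝ) - 1) + (Wf p dn dd L : ℝ)/(dd*SC)) := by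
    apply mul_le_mul_of_nonneg_left _ hnn
    linarith
  refine h1.trans ?_
  have h2 : nu p / ((p:ℝ) - 1) * ((f:ℝ)/SC - del p * ((p:ℝ) - 1) + (Wf p dn dd L : ℝ)/(dd*SC))
      = (((dd*f + Wf p dn dd L : ℕ):ℝ) - ((dn*(p-1)*SC : ℕ):ℝ)) / (((p-1)*(dd-dn) : ℕ):ℝ) / SC := by
    rw [hnu, hdel, Nat.cast_mul (dn*(p-1)), Nat.cast_mul dn, Nat.cast_mul (p-1), hp1]
    push_cast
    field_simp
    ring
  rw [h2]
  apply div_le_div_of_nonneg_right _ hS.le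
  have hD : 0 < (p-1)*(dd-dn) := Nat.mul_pos (by omega) hbpos
  refine le_trans ?_ (cast_div_le' (dd*f + Wf p dn dd L - dn*(p-1)*SC) ((p-1)*(dd-dn)) hD)
  apply div_le_div_of_nonneg_right _ (by positivity)
  have h3 : dd*f + Wf p dn dd L ≤ (dd*f + Wf p dn dd L - dn*(p-1)*SC) + dn*(p-1)*SC := by omega
  have h4 : ((dd*f + Wf p dn dd L : ℕ):ℝ) ≤ ((dd*f + Wf p dn dd L - dn*(p-1)*SC : ℕ):ℝ)
      + ((dn*(p-1)*SC : ℕ):ℝ) := by exact_mod_cast h3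
  linarith

/-- all hypotheses of the numeric bound -/
structure Hyp (F G : ℕ → ℝ) (P : ℕ → ℕ → ℝ) (cost : ℕ → ℝ) : Prop where
  hP0 : ∀ i n, 0 ≤ P i n
  hF0 : ∀ i, 0 ≤ F i
  hG0 : ∀ i, 0 ≤ G i
  hFp : ∀ i, 7 ≤ i → i.Prime → F (i+1) ≤ F i * (1 + nu i / ((i:ℝ) - 1))
  hFn : ∀ i, 7 ≤ i → ¬ i.Prime → F (i+1) ≤ F i
  hGp : ∀ i, 7 ≤ i → i.Prime → G (i+1) ≤ G i * (1 + nu i * (3 * (i:ℝ) - 1) / ((i:ℝ) - 1)^2)
  hGn : ∀ i, 7 ≤ i → ¬ i.Prime → G (i+1) ≤ G i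
  hPp : ∀ i, 7 ≤ i → i.Prime → ∀ n, 1 ≤ n → n ≤ 100 →
      P (i+1) n ≤ ∑ d ∈ n.divisors, P i (n / d) * rho i (d - 1)
  hPn : ∀ i, 7 ≤ i → ¬ i.Prime → ∀ n, 1 ≤ n → n ≤ 100 → P (i+1) n ≤ P i n
  hc1 : ∀ j, 7 ≤ j → j.Prime → j < 300 →
      cost j ≤ nu j / ((j:ℝ) - 1) * (F j - del j * ((j:ℝ) - 1)
        + ∑ n ∈ Finset.Icc (1:ℕ) 100, max (del j * ((j:ℝ) - 1) - (n:ℝ)) 0 * P j n)

theorem Ok.gap {F G : ℕ → ℝ} {P : ℕ → ℕ → ℝ} {cost : ℕ → ℝ} (H : Hyp F G P cost) {i : ℕ} {s : St}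
    (h : Ok F G P cost i s) (h7 : 7 ≤ i) (m : ℕ) (hm : ∀ k, k < m → ¬ (i+k).Prime) :
    Ok F G P cost (i+m) s := by
  induction m with
  | zero => exact h
  | succ m ih =>
    have h1 := ih (fun k hk => hm k (by omega))
    have h2 := hm m (by omega)
    refine ⟨(H.hFn _ (by omega) h2).trans h1.hf, h1.hi.step_not h2 (H.hGn _ (by omega) h2), ?_⟩
    intro n hn1 hn2
    exact (H.hPn _ (by omega) h2 n hn1 (by omega)).trans (h1.hP n hn1 hn2)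

theorem del_nu (p dn dd : ℕ) (hlt : dn < dd) (h : delQ p = (dn:ℚ)/(dd:ℚ)) :
    del p = (dn:ℝ)/(dd:ℝ) ∧ nu p = (dd:ℝ)/((dd-dn : ℕ):ℝ) := by
  have h1 : del p = (dn:ℝ)/(dd:ℝ) := by
    unfold del; rw [h]; push_cast; rfl
  refine ⟨h1, ?_⟩
  unfold nu
  rw [h1, Nat.cast_sub hlt.le]
  have hddR : (0:ℝ) < dd := by exact_mod_cast (by omega : 0 < dd)
  have : (dd:ℝ) - dn ≠ 0 := by
    have : (dn:ℝ) < dd := by exact_mod_cast hlt
    linarith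
  field_simp

theorem Ok.step {F G : ℕ → ℝ} {P : ℕ → ℕ → ℝ} {cost : ℕ → ℝ} (H : Hyp F G P cost) {p : ℕ} {s : St}
    (h : Ok F G P cost p s) (s' : St) (dn dd : ℕ) (h7 : 7 ≤ p) (h300 : p < 300) (hp : p.Prime)
    (hlt : dn < dd) (hdel : delQ p = (dn:ℚ)/(dd:ℚ)) (hc : chk p dn dd s s' = true) :
    Ok F G P cost (p+1) s' := by
  obtain ⟨hd, hn⟩ := del_nu p dn dd hlt hdel
  unfold chk at hc
  rw [Bool.and_eq_true, Bool.and_eq_true, Bool.and_eq_true, Bool.and_eq_true,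
    Nat.ble_eq, Nat.ble_eq, Nat.ble_eq, Nat.ble_eq] at hc
  obtain ⟨c1, c2, c3, c4, c5⟩ := hc
  have hbpos : 0 < dd - dn := by omega
  have hp1 : (((p-1 : ℕ)):ℝ) = (p:ℝ) - 1 := by
    rw [Nat.cast_sub (by omega)]; norm_num
  have hp3 : (((3*p-1 : ℕ)):ℝ) = 3*(p:ℝ) - 1 := by
    rw [Nat.cast_sub (by omega)]; push_cast; ring
  have hpR : (0:ℝ) < (p:ℝ) - 1 := by
    rw [← hp1]; exact_mod_cast (by omega : 0 < p - 1)
  have hbR : (0:ℝ) < ((dd - dn : ℕ):ℝ) := by exact_mod_cast hbpos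
  have hS := SC_pos
  refine ⟨?_, ⟨?_, ?_⟩, ?_⟩
  · refine (H.hFp p h7 hp).trans ?_
    have e1 : nu p / ((p:ℝ) - 1) = ((dd:ℕ):ℝ)/(((dd-dn)*(p-1) : ℕ):ℝ) := by
      rw [hn, Nat.cast_mul, hp1]; field_simp
    rw [e1]
    have a1 := step_arith (F p) s.f dd ((dd-dn)*(p-1)) (Nat.mul_pos hbpos (by omega)) h.hf
    have h1 := h.hf
    calc F p * (1 + ((dd:ℕ):ℝ)/(((dd-dn)*(p-1) : ℕ):ℝ))
        = F p + F p * (((dd:ℕ):ℝ)/(((dd-dn)*(p-1) : ℕ):ℝ)) := by ring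
      _ ≤ (s.f:ℝ)/SC + ((s.f*dd/((dd-dn)*(p-1))+1 : ℕ):ℝ)/SC := add_le_add h1 a1
      _ = ((s.f + s.f*dd/((dd-dn)*(p-1)) + 1 : ℕ):ℝ)/SC := by rw [← add_div]; congr 1; push_cast; ring
      _ ≤ _ := div_le_div_of_nonneg_right (by exact_mod_cast c1) hS.le
  · refine (H.hGp p h7 hp).trans ?_
    have e1 : nu p * (3 * (p:ℝ) - 1) / ((p:ℝ) - 1)^2
        = ((dd*(3*p-1) : ℕ):ℝ)/(((dd-dn)*((p-1)*(p-1)) : ℕ):ℝ) := by
      rw [hn, Nat.cast_mul, Nat.cast_mul, Nat.cast_mul, hp1, hp3]; field_simp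
    rw [e1]
    have a1 := step_arith (G p) s.g (dd*(3*p-1)) ((dd-dn)*((p-1)*(p-1)))
      (Nat.mul_pos hbpos (Nat.mul_pos (by omega) (by omega))) h.hi.hg
    have h1 := h.hi.hg
    calc G p * (1 + ((dd*(3*p-1) : ℕ):ℝ)/(((dd-dn)*((p-1)*(p-1)) : ℕ):ℝ))
        = G p + G p * (((dd*(3*p-1) : ℕ):ℝ)/(((dd-dn)*((p-1)*(p-1)) : ℕ):ℝ)) := by ring
      _ ≤ (s.g:ℝ)/SC + ((s.g*(dd*(3*p-1))/((dd-dn)*((p-1)*(p-1)))+1 : ℕ):ℝ)/SC := add_le_add h1 a1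
      _ = ((s.g + s.g*(dd*(3*p-1))/((dd-dn)*((p-1)*(p-1))) + 1 : ℕ):ℝ)/SC := by
          rw [← add_div]; congr 1; push_cast; ring
      _ ≤ _ := div_le_div_of_nonneg_right (by exact_mod_cast c2) hS.le
  · intro K hK
    rcases Nat.lt_or_ge K (p+1) with h1 | h1
    · refine (h.hi.ht K (by omega)).trans ?_
      apply div_le_div_of_nonneg_right _ hS.le
      have : s.t ≤ s'.t := (Nat.le_add_right _ _).trans c3
      exact_mod_cast this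
    · have : K = p+1 := by omega
      subst this
      rw [TT_succ_prime cost h7 hp]
      have h2 := (H.hc1 p h7 hp h300).trans
        (cost_le (F p) (P p) s.L s.f p dn dd (by omega) hlt (H.hP0 p) hd hn h.hf h.hP c4)
      calc TT cost p + cost p ≤ (s.t:ℝ)/SC + _ := add_le_add (h.hi.ht p le_rfl) h2
        _ = ((s.t + ((dd*s.f + Wf p dn dd s.L - dn*(p-1)*SC)/((p-1)*(dd-dn)) + 1) : ℕ):ℝ)/SC := by
            rw [← add_div]; congr 1; push_cast; ring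
        _ ≤ _ := div_le_div_of_nonneg_right (by exact_mod_cast c3) hS.le
  · intro n hn1 hn2
    refine (H.hPp p h7 hp n hn1 (by omega)).trans ?_
    refine (sum_divisors_le (P p) (H.hP0 p) s.L p dn dd (by omega) hlt hn h.hP n hn1 hn2).trans ?_
    have h3 := allB_spec _ _ c5 n hn1 hn2
    rw [Nat.ble_eq] at h3
    exact div_le_div_of_nonneg_right (by exact_mod_cast h3) hS.le

end Pool.Agent.H28.Cov
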