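import Pool.Agent.H28.Cov.NumDefs

namespace Pool.Agent.H28.Cov

open Finset

/-- sum of costs over primes `≥ 7` below `K` -/
noncomputable def TT (cost : ℕ → ℝ) (K : ℕ) : ℝ :=
  ∑ j ∈ (range K).filter (fun j => 7 ≤ j ∧ j.Prime), cost j

theorem TT_succ_prime (cost : ℕ → ℝ) {i : ℕ} (h7 : 7 ≤ i) (hp : i.Prime) :
    TT cost (i+1) = TT cost i + cost i := by
  unfold TT
  rw [range_add_one, filter_insert, if_pos ⟨h7, hp⟩, sum_insert (by simp)]
  ring

theorem TT_succ_not (cost : ℕ → ℝ) {i : ℕ} (hp : ¬ i.Prime) :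
    TT cost (i+1) = TT cost i := by
  unfold TT
  rw [range_add_one, filter_insert, if_neg (fun h => hp h.2)]

theorem TT_small (cost : ℕ → ℝ) {K : ℕ} (h : K ≤ 7) : TT cost K = 0 := by
  unfold TT
  apply Finset.sum_eq_zero
  intro j hj
  rw [mem_filter, mem_range] at hj
  omega

/-- number of primes in `[a, a+m)` -/
def pc (a m : ℕ) : ℕ := ((Ico a (a+m)).filter Nat.Prime).card

theorem pc_zero (a : ℕ) : pc a 0 = 0 := by simp [pc]

theorem pc_succ_prime {a m : ℕ} (h : (a+m).Prime) : pc a (m+1) = pc a m + 1 := by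
  unfold pc
  rw [← add_assoc, ← Finset.insert_Ico_right_eq_Ico_add_one (by omega), filter_insert, if_pos h,
    card_insert_of_notMem (by simp)]

theorem pc_succ_not {a m : ℕ} (h : ¬ (a+m).Prime) : pc a (m+1) = pc a m := by
  unfold pc
  rw [← add_assoc, ← Finset.insert_Ico_right_eq_Ico_add_one (by omega), filter_insert, if_neg h]

theorem pc_mono {a m m' : ℕ} (h : m ≤ m') : pc a m ≤ pc a m' := by
  unfold pc
  apply card_le_card
  apply filter_subset_filter
  apply Ico_subset_Ico le_rfl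
  omega

theorem pc_block {k : ℕ} (hk : 13 ≤ k) : pc (2310*k) 2310 ≤ 480 := by
  have h := Nat.filter_coprime_Ico_eq_totient 2310 (2310*k)
  have ht : Nat.totient 2310 = 480 := by decide +kernel
  rw [ht] at h
  rw [← h]
  unfold pc
  apply card_le_card
  intro j hj
  rw [mem_filter, mem_Ico] at hj ⊢
  refine ⟨hj.1, ?_⟩
  rw [Nat.coprime_comm, Nat.Prime.coprime_iff_not_dvd hj.2]
  intro hd
  have := Nat.le_of_dvd (by norm_num) hd
  omega

theorem block_growth (G : ℕ → ℝ) (_hG0 : ∀ i, 0 ≤ G i) (x : ℝ) (hx : 0 ≤ x) (a : ℕ)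
    (hGp : ∀ i, a ≤ i → i.Prime → G (i+1) ≤ G i * (1 + x))
    (hGn : ∀ i, a ≤ i → ¬ i.Prime → G (i+1) ≤ G i) (m : ℕ) :
    G (a+m) ≤ G a * (1+x)^(pc a m) := by
  induction m with
  | zero => simp [pc_zero]
  | succ m ih =>
    by_cases h : (a+m).Prime
    · rw [pc_succ_prime h, ← add_assoc]
      calc G (a+m+1) ≤ G (a+m) * (1+x) := hGp _ (by omega) h
        _ ≤ (G a * (1+x)^(pc a m)) * (1+x) := by
            apply mul_le_mul_of_nonneg_right ih; linarith
        _ = _ := by ring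
    · rw [pc_succ_not h, ← add_assoc]
      exact (hGn _ (by omega) h).trans ih

theorem block_cost (G : ℕ → ℝ) (cost : ℕ → ℝ) (hG0 : ∀ i, 0 ≤ G i) (x y : ℝ) (hx : 0 ≤ x) (hy : 0 ≤ y)
    (a N : ℕ) (h7 : 7 ≤ a)
    (hGp : ∀ i, a ≤ i → i.Prime → G (i+1) ≤ G i * (1 + x))
    (hGn : ∀ i, a ≤ i → ¬ i.Prime → G (i+1) ≤ G i)
    (hc : ∀ i, a ≤ i → i.Prime → cost i ≤ G i * y)
    (m : ℕ) (hm : pc a m ≤ N) :
    TT cost (a+m) ≤ TT cost a + (pc a m) * (G a * (1+x)^N * y) := by
  induction m with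
  | zero => simp [pc_zero]
  | succ m ih =>
    by_cases h : (a+m).Prime
    · have hle : pc a m ≤ N := (pc_mono (Nat.le_succ m)).trans hm
      rw [pc_succ_prime h, ← add_assoc, TT_succ_prime cost (by omega) h]
      have h1 := ih hle
      have h2 := hc (a+m) (by omega) h
      have h3 := block_growth G hG0 x hx a hGp hGn m
      have h4 : (1+x)^(pc a m) ≤ (1+x)^N := pow_le_pow_right₀ (by linarith) hle
      have h5 : G (a+m) * y ≤ G a * (1+x)^N * y := by
        apply mul_le_mul_of_nonneg_right _ hy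
        exact h3.trans (mul_le_mul_of_nonneg_left h4 (hG0 a))
      push_cast
      linarith
    · rw [pc_succ_not h, ← add_assoc, TT_succ_not cost h]
      rw [pc_succ_not h] at hm
      exact ih hm

theorem grow_le (x : ℝ) (hx : 0 ≤ x) (h : 480 * x < 1) : (1+x)^480 ≤ 1/(1-480*x) := by
  have h1 : (1+x)^480 ≤ Real.exp (480*x) := by
    have := Real.add_one_le_exp x
    have h0 : 0 ≤ 1 + x := by linarith
    have h0' : 1 + x ≤ Real.exp x := by linarith
    calc (1+x)^480 ≤ (Real.exp x)^480 := pow_le_pow_left₀ h0 h0' _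
      _ = Real.exp (480*x) := by rw [← Real.exp_nat_mul]; norm_num
  refine h1.trans ?_
  clear h1
  have h2 := Real.add_one_le_exp (-(480*x))
  rw [Real.exp_neg] at h2
  rw [le_div_iff₀ (by linarith)]
  have h3 := Real.exp_pos (480*x)
  have h4 : Real.exp (480*x) * (Real.exp (480*x))⁻¹ = 1 := mul_inv_cancel₀ h3.ne'
  nlinarith

end Pool.Agent.H28.Cov
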