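import Pool.Agent.H28.Cov.LemmaA

/-!
The abstract distortion method with a potential function.
-/

namespace Pool.Agent.H28.Cov

open Finset Classical

structure Sys where
  γ : ℕ
  e : ℕ → ℕ → ℕ
  w : ℕ → ℝ
  top : ℕ → ℕ
  δ : ℕ → ℝ
  r : ℕ → ℕ → ℝ
  Y : ℕ → Finset ℕ
  C : ℕ → ℕ → ℕ → Prop
  S : Finset ℕ
  hδ0 : ∀ k, 0 ≤ δ k
  hδ1 : ∀ k, δ k < 1
  hw : ∀ m, 0 ≤ w m
  he : ∀ k, ∀ m ∈ S, e k m ≤ γ
  hr0 : ∀ k, r k 0 = 1
  hrm : ∀ k i, r k (i+1) ≤ r k i
  hrn : ∀ k i, 0 ≤ r k i
  hY : ∀ k, (Y k).Nonempty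
  hC : ∀ k, ∀ m ∈ S, 1 ≤ e k m →
    (((Y k).filter (fun y => C k m y)).card : ℝ) ≤ (1 - δ k) * r k (e k m) * (Y k).card
  htop : ∀ m ∈ S,
    (((Y (top m)).filter (fun y => C (top m) m y)).card : ℝ) ≤ w m * (Y (top m)).card

namespace Sys

variable (D : Sys)

noncomputable def rho (k v : ℕ) : ℝ := if v < D.γ then D.r k v - D.r k (v+1) else D.r k v

theorem rho_nonneg (k v : ℕ) : 0 ≤ D.rho k v := by
  unfold rho
  split_ifs
  · linarith [D.hrm k v]
  · exact D.hrn k v

theorem sum_rho (k : ℕ) : ∀ i, i ≤ D.γ → ∑ v ∈ Finset.Icc i D.γ, D.rho k v = D.r k i := by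
  have key : ∀ j, j ≤ D.γ → ∑ v ∈ Finset.Icc (D.γ - j) D.γ, D.rho k v = D.r k (D.γ - j) := by
    intro j
    induction j with
    | zero =>
      intro _
      simp [rho]
    | succ j ih =>
      intro hj
      have h1 := ih (by omega)
      have h2 : Finset.Icc (D.γ - (j+1)) D.γ = insert (D.γ - (j+1)) (Finset.Icc (D.γ - j) D.γ) := by
        ext v; simp only [Finset.mem_insert, Finset.mem_Icc]; omega
      rw [h2, Finset.sum_insert (by simp only [Finset.mem_Icc]; omega), h1]
      have h3 : D.γ - (j+1) < D.γ := by omega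
      have h4 : D.γ - (j+1) + 1 = D.γ - j := by omega
      unfold rho
      rw [if_pos h3, h4]
      ring
  intro i hi
  have := key (D.γ - i) (by omega)
  rwa [show D.γ - (D.γ - i) = i by omega] at this

noncomputable def term (k : ℕ) (A : Finset ℕ) : ℝ :=
  1 / (1 - D.δ k) * max (∑ m ∈ A.filter (fun m => D.top m = k), D.w m - D.δ k) 0

theorem term_nonneg (k : ℕ) (A : Finset ℕ) : 0 ≤ D.term k A :=
  mul_nonneg (one_div_nonneg.mpr (by linarith [D.hδ1 k])) (le_max_right _ _)

noncomputable def T : ℕ → ℕ → Finset ℕ → ℝ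
  | 0, k, A => D.term k A
  | n+1, k, A => ∑ v ∈ range (D.γ + 1), D.rho k v * T n (k+1) (A.filter (fun m => D.e k m ≤ v))

theorem T_nonneg : ∀ (n k : ℕ) (A : Finset ℕ), 0 ≤ D.T n k A
  | 0, k, A => D.term_nonneg k A
  | n+1, k, A => by
    rw [T]
    exact Finset.sum_nonneg (fun v _ => mul_nonneg (D.rho_nonneg k v) (T_nonneg n _ _))

def Good (k : ℕ) (G : Finset ℕ → ℝ) : Prop :=
  ∀ (A : Finset ℕ), A ⊆ D.S → ∀ (Y : Finset ℕ) (P : ℕ → ℝ) (C : ℕ → ℕ → Prop),
    (∀ y ∈ Y, 0 ≤ P y) →
    (∀ m ∈ A, ∑ y ∈ Y.filter (fun y => C m y), P y ≤ D.r k (D.e k m)) →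
    ∑ y ∈ Y, P y * G (A.filter (fun m => C m y)) ≤
      ∑ v ∈ range (D.γ + 1), D.rho k v * G (A.filter (fun m => D.e k m ≤ v))

theorem good_term (k k' : ℕ) : D.Good k (D.term k') := by
  intro A hA Y P C hP hr
  have h := stoploss (A.filter (fun m => D.top m = k')) Y P hP C D.w (fun l _ => D.hw l)
    (D.e k) D.γ (fun l hl => D.he k l (hA (Finset.mem_filter.mp hl).1)) (D.r k) (D.rho k)
    (fun l hl => hr l (Finset.mem_filter.mp hl).1) (D.rho_nonneg k) (D.sum_rho k)
    (D.δ k') (D.hδ0 k')
  have hν : 0 ≤ 1 / (1 - D.δ k') := one_div_nonneg.mpr (by linarith [D.hδ1 k'])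
  have h' := mul_le_mul_of_nonneg_left h hν
  rw [Finset.mul_sum, Finset.mul_sum] at h'
  have e1 : ∀ y ∈ Y, 1 / (1 - D.δ k') * (P y * max (∑ l ∈ (A.filter (fun m => D.top m = k')).filter
      (fun l => C l y), D.w l - D.δ k') 0) = P y * D.term k' (A.filter (fun m => C m y)) := by
    intro y _
    unfold term
    rw [Finset.filter_comm]
    ring
  have e2 : ∀ v ∈ range (D.γ + 1), 1 / (1 - D.δ k') * (D.rho k v *
      max (∑ l ∈ (A.filter (fun m => D.top m = k')).filter
      (fun l => D.e k l ≤ v), D.w l - D.δ k') 0)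
      = D.rho k v * D.term k' (A.filter (fun m => D.e k m ≤ v)) := by
    intro v _
    unfold term
    rw [Finset.filter_comm]
    ring
  rw [Finset.sum_congr rfl e1, Finset.sum_congr rfl e2] at h'
  exact h'

theorem good_T (k : ℕ) : ∀ (n k' : ℕ), D.Good k (D.T n k')
  | 0, k' => D.good_term k k'
  | n+1, k' => by
    intro A hA Y P C hP hr
    have ih := good_T k n (k'+1)
    have h1 : ∑ y ∈ Y, P y * D.T (n+1) k' (A.filter (fun m => C m y)) =
        ∑ v ∈ range (D.γ + 1), D.rho k' v * ∑ y ∈ Y, P y *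
          D.T n (k'+1) ((A.filter (fun m => D.e k' m ≤ v)).filter (fun m => C m y)) := by
      simp only [T, Finset.mul_sum]
      rw [Finset.sum_comm]
      apply Finset.sum_congr rfl
      intro v _
      apply Finset.sum_congr rfl
      intro y _
      rw [Finset.filter_comm]
      ring
    have h2 : ∑ v' ∈ range (D.γ + 1), D.rho k v' * D.T (n+1) k' (A.filter (fun m => D.e k m ≤ v')) =
        ∑ v ∈ range (D.γ + 1), D.rho k' v * ∑ v' ∈ range (D.γ + 1), D.rho k v' *
          D.T n (k'+1) ((A.filter (fun m => D.e k' m ≤ v)).filter (fun m => D.e k m ≤ v')) := by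
      simp only [T, Finset.mul_sum]
      rw [Finset.sum_comm]
      apply Finset.sum_congr rfl
      intro v _
      apply Finset.sum_congr rfl
      intro y _
      rw [Finset.filter_comm]
      ring
    rw [h1, h2]
    apply Finset.sum_le_sum
    intro v _
    apply mul_le_mul_of_nonneg_left _ (D.rho_nonneg k' v)
    exact ih (A.filter (fun m => D.e k' m ≤ v)) ((Finset.filter_subset _ _).trans hA) Y P C hP
      (fun m hm => hr m (Finset.mem_filter.mp hm).1)

/-- the potential -/
noncomputable def W (n k : ℕ) (A : Finset ℕ) : ℝ := ∑ i ∈ range n, D.T i k A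

theorem W_nonneg (n k : ℕ) (A : Finset ℕ) : 0 ≤ D.W n k A :=
  Finset.sum_nonneg (fun _ _ => D.T_nonneg _ _ _)

theorem W_succ (n k : ℕ) (A : Finset ℕ) : D.W (n+1) k A = D.term k A +
    ∑ v ∈ range (D.γ + 1), D.rho k v * D.W n (k+1) (A.filter (fun m => D.e k m ≤ v)) := by
  unfold W
  rw [Finset.sum_range_succ']
  simp only [T, Finset.mul_sum]
  rw [Finset.sum_comm, add_comm]

theorem good_W (k n k' : ℕ) : D.Good k (D.W n k') := by
  intro A hA Y P C hP hr
  unfold W
  simp only [Finset.mul_sum]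
  rw [Finset.sum_comm, Finset.sum_comm (s := range (D.γ + 1))]
  apply Finset.sum_le_sum
  intro i _
  exact D.good_T k i k' A hA Y P C hP hr

theorem step (n k : ℕ) (A : Finset ℕ) (hA : A ⊆ D.S) (hW : D.W (n+1) k A < 1) :
    ∃ y ∈ D.Y k, (∀ m ∈ A, D.top m = k → ¬ D.C k m y) ∧
      D.W n (k+1) (A.filter (fun m => D.C k m y)) < 1 := by
  set R : ℝ := ∑ v ∈ range (D.γ + 1), D.rho k v * D.W n (k+1) (A.filter (fun m => D.e k m ≤ v))
    with hR
  rw [W_succ, ← hR] at hW
  set Y := D.Y k with hYdef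
  have hYpos : (0:ℝ) < Y.card := by
    exact_mod_cast Finset.card_pos.mpr (D.hY k)
  set U := Y.filter (fun y => ∀ m ∈ A, D.top m = k → ¬ D.C k m y) with hU
  have hUY : U ⊆ Y := Finset.filter_subset _ _
  set B := A.filter (fun m => D.top m = k) with hB
  set u : ℝ := ∑ m ∈ B, D.w m with hu
  have hδ0 := D.hδ0 k
  have hδ1 := D.hδ1 k
  have hterm : D.term k A = 1 / (1 - D.δ k) * max (u - D.δ k) 0 := rfl
  -- number of covered points
  have hcov : (Y.card : ℝ) - U.card ≤ u * Y.card := by
    have h1 : Y \ U ⊆ B.biUnion (fun m => Y.filter (fun y => D.C k m y)) := by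
      intro y hy
      rw [Finset.mem_sdiff, hU, Finset.mem_filter] at hy
      obtain ⟨hy1, hy2⟩ := hy
      push Not at hy2
      obtain ⟨m, hm, hm1, hm2⟩ := hy2 hy1
      rw [Finset.mem_biUnion]
      exact ⟨m, Finset.mem_filter.mpr ⟨hm, hm1⟩, Finset.mem_filter.mpr ⟨hy1, hm2⟩⟩
    have h2 : ((Y \ U).card : ℝ) ≤ ∑ m ∈ B, ((Y.filter (fun y => D.C k m y)).card : ℝ) := by
      have := (Finset.card_le_card h1).trans Finset.card_biUnion_le
      exact_mod_cast this
    have h3 : ((Y \ U).card : ℝ) = Y.card - U.card := by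
      rw [Finset.card_sdiff_of_subset hUY, Nat.cast_sub (Finset.card_le_card hUY)]
    rw [h3] at h2
    refine h2.trans ?_
    rw [hu, Finset.sum_mul]
    apply Finset.sum_le_sum
    intro m hm
    have hm' := Finset.mem_filter.mp hm
    have := D.htop m (hA hm'.1)
    rw [hm'.2] at this
    exact this
  by_contra hcon
  push Not at hcon
  have hcon' : ∀ y ∈ U, 1 ≤ D.W n (k+1) (A.filter (fun m => D.C k m y)) := by
    intro y hy
    have hy' := Finset.mem_filter.mp hy
    exact hcon y hy'.1 hy'.2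
  -- general consequence for constant weights
  have main : ∀ q : ℝ, 0 ≤ q → q * U.card ≤ 1 → q * Y.card * (1 - D.δ k) ≤ 1 →
      q * U.card ≤ R := by
    intro q hq hq1 hq2
    have hg := D.good_W k n (k+1) A hA U (fun _ => q) (fun m y => D.C k m y) (fun _ _ => hq) (by
      intro m hm
      rw [Finset.sum_const, nsmul_eq_mul]
      rcases Nat.eq_zero_or_pos (D.e k m) with h0 | h0
      · rw [h0, D.hr0]
        calc ((U.filter (fun y => D.C k m y)).card : ℝ) * q ≤ U.card * q := by
              apply mul_le_mul_of_nonneg_right _ hq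
              exact_mod_cast Finset.card_le_card (Finset.filter_subset _ _)
          _ ≤ 1 := by linarith
      · have h1 := D.hC k m (hA hm) h0
        have h2 : ((U.filter (fun y => D.C k m y)).card : ℝ) ≤
            (Y.filter (fun y => D.C k m y)).card := by
          exact_mod_cast Finset.card_le_card (Finset.filter_subset_filter _ hUY)
        calc ((U.filter (fun y => D.C k m y)).card : ℝ) * q
            ≤ ((1 - D.δ k) * D.r k (D.e k m) * Y.card) * q :=
              mul_le_mul_of_nonneg_right (h2.trans h1) hq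
          _ = D.r k (D.e k m) * (q * Y.card * (1 - D.δ k)) := by ring
          _ ≤ D.r k (D.e k m) * 1 := mul_le_mul_of_nonneg_left hq2 (D.hrn _ _)
          _ = _ := mul_one _)
    refine le_trans ?_ hg
    calc q * U.card = ∑ y ∈ U, q * 1 := by rw [Finset.sum_const, nsmul_eq_mul]; ring
      _ ≤ _ := Finset.sum_le_sum (fun y hy => mul_le_mul_of_nonneg_left (hcon' y hy) hq)
  have hUle : (U.card : ℝ) ≤ Y.card := by exact_mod_cast Finset.card_le_card hUY
  have h1δ : 0 < 1 - D.δ k := by linarith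
  by_cases hα : (Y.card : ℝ) - U.card < D.δ k * Y.card
  · -- few points covered: uniform measure on U
    have hUpos : (0:ℝ) < U.card := by nlinarith
    have h := main (1 / U.card) (by positivity) (by rw [one_div, inv_mul_cancel₀ hUpos.ne'])
      (by
        rw [one_div, mul_assoc, inv_mul_le_iff₀ hUpos]
        nlinarith)
    rw [one_div, inv_mul_cancel₀ hUpos.ne'] at h
    linarith [D.term_nonneg k A]
  · push Not at hα
    have h := main (1 / ((1 - D.δ k) * Y.card)) (by positivity)
      (by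
        rw [one_div, inv_mul_le_iff₀ (by positivity)]
        nlinarith)
      (by
        apply le_of_eq
        field_simp)
    rw [hterm] at hW
    have h2 : 1 / (1 - D.δ k) * (u - D.δ k) ≤ 1 / (1 - D.δ k) * max (u - D.δ k) 0 :=
      mul_le_mul_of_nonneg_left (le_max_left _ _) (by positivity)
    have h3 : 1 / (1 - D.δ k) * (u - D.δ k) + 1 / ((1 - D.δ k) * Y.card) * U.card < 1 := by
      linarith
    have h4 : 1 / (1 - D.δ k) * (u - D.δ k) + 1 / ((1 - D.δ k) * Y.card) * U.card
        = ((u - D.δ k) * Y.card + U.card) / ((1 - D.δ k) * Y.card) := by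
      field_simp
    rw [h4, div_lt_one (by positivity)] at h3
    nlinarith

theorem exists_point (K : ℕ) (hW : D.W K 0 D.S < 1) (hK : ∀ m ∈ D.S, D.top m < K) :
    ∃ y : ℕ → ℕ, (∀ k < K, y k ∈ D.Y k) ∧ ∀ m ∈ D.S, ∃ k < K, ¬ D.C k m (y k) := by
  have key : ∀ k, k ≤ K → ∃ y : ℕ → ℕ, (∀ i < k, y i ∈ D.Y i) ∧
      D.W (K - k) k (D.S.filter (fun m => ∀ i < k, D.C i m (y i))) < 1 ∧
      ∀ m ∈ D.S, D.top m < k → ∃ i < k, ¬ D.C i m (y i) := by
    intro k
    induction k with
    | zero =>
      intro _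
      refine ⟨fun _ => 0, by simp, ?_, by simp⟩
      simpa using hW
    | succ k ih =>
      intro hk
      obtain ⟨y, hy1, hy2, hy3⟩ := ih (by omega)
      rw [show K - k = (K - (k+1)) + 1 by omega] at hy2
      obtain ⟨z, hz1, hz2, hz3⟩ := D.step (K - (k+1)) k _ (Finset.filter_subset _ _) hy2
      have hne : ∀ i < k, Function.update y k z i = y i := by
        intro i hi
        rw [Function.update_of_ne (by omega)]
      refine ⟨Function.update y k z, ?_, ?_, ?_⟩
      · intro i hi
        rcases Nat.lt_succ_iff_lt_or_eq.mp hi with h | h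
        · rw [hne i h]; exact hy1 i h
        · rw [h, Function.update_self]; exact hz1
      · have : D.S.filter (fun m => ∀ i < k + 1, D.C i m (Function.update y k z i)) =
            (D.S.filter (fun m => ∀ i < k, D.C i m (y i))).filter (fun m => D.C k m z) := by
          ext m
          simp only [Finset.mem_filter]
          constructor
          · rintro ⟨h1, h2⟩
            refine ⟨⟨h1, fun i hi => ?_⟩, ?_⟩
            · have := h2 i (by omega)
              rwa [hne i hi] at this
            · have := h2 k (by omega)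
              rwa [Function.update_self] at this
          · rintro ⟨⟨h1, h2⟩, h3⟩
            refine ⟨h1, fun i hi => ?_⟩
            rcases Nat.lt_succ_iff_lt_or_eq.mp hi with h | h
            · rw [hne i h]; exact h2 i h
            · rw [h, Function.update_self]; exact h3
        rw [this]
        exact hz3
      · intro m hm hmt
        rcases Nat.lt_succ_iff_lt_or_eq.mp hmt with h | h
        · obtain ⟨i, hi, hi'⟩ := hy3 m hm h
          exact ⟨i, by omega, by rwa [hne i hi]⟩
        · by_cases hex : ∀ i < k, D.C i m (y i)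
          · refine ⟨k, by omega, ?_⟩
            rw [Function.update_self]
            exact hz2 m (Finset.mem_filter.mpr ⟨hm, hex⟩) h
          · push Not at hex
            obtain ⟨i, hi, hi'⟩ := hex
            exact ⟨i, by omega, by rwa [hne i hi]⟩
  obtain ⟨y, hy1, _, hy3⟩ := key K le_rfl
  exact ⟨y, hy1, fun m hm => hy3 m hm (hK m hm)⟩

end Sys

end Pool.Agent.H28.Cov
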